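import Mathlib

/-! Two sampling lemmas (union bounds in a finite product space). -/

set_option autoImplicit false

namespace Pool.Agent.Lib.MP_270b52_co.Kh

open Finset

theorem exists_avoid {ι Ω κ : Type} [Fintype ι] [DecidableEq ι] [Fintype Ω] [Nonempty Ω]
    (W : Finset κ) (bad : κ → ι → Finset Ω)
    (h : ∑ w ∈ W, ∏ i, ((bad w i).card / Fintype.card Ω : ℝ) < 1) :
    ∃ φ : ι → Ω, ∀ w ∈ W, ∃ i, φ i ∉ bad w i := by
  classical
  by_contra hn
  push Not at hn
  have h1 : (univ : Finset (ι → Ω)) ⊆ W.biUnion fun w => Fintype.piFinset (bad w) := fun φ _ => by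
    obtain ⟨w, hw, h2⟩ := hn φ
    exact mem_biUnion.2 ⟨w, hw, Fintype.mem_piFinset.2 h2⟩
  have h2 := (card_le_card h1).trans card_biUnion_le
  simp only [Fintype.card_piFinset, card_univ, Fintype.card_fun] at h2
  have h3 : (0 : ℝ) < (Fintype.card Ω : ℝ) ^ Fintype.card ι := by
    have := Fintype.card_pos (α := Ω); positivity
  simp only [prod_div_distrib, prod_const, card_univ, ← sum_div] at h
  rw [div_lt_one h3] at h
  have h4 : ((Fintype.card Ω : ℝ)) ^ Fintype.card ι ≤ ∑ w ∈ W, ∏ i, ((bad w i).card : ℝ) := by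
    exact_mod_cast h2
  linarith

/-- plain sampling -/
theorem sample {Ω κ : Type} [Fintype Ω] [DecidableEq Ω] [Nonempty Ω] (W : Finset κ)
    (good : κ → Finset Ω) (p : ℝ) (hp : 0 < p) (E : ℕ) (hW : W.card ≤ 2 ^ E)
    (h : ∀ w ∈ W, p * Fintype.card Ω ≤ (good w).card) :
    ∃ G : Finset Ω, (G.card : ℝ) ≤ E / p + 2 ∧ ∀ w ∈ W, ∃ ω ∈ G, ω ∈ good w := by
  obtain ⟨L, hL⟩ : ∃ L : ℕ, L = ⌈E / p⌉₊ + 1 := ⟨_, rfl⟩
  have c0 : (0 : ℝ) < Fintype.card Ω := by exact_mod_cast Fintype.card_pos
  have l1 : (E : ℝ) < p * L := by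
    have := Nat.le_ceil (E / p)
    rw [div_le_iff₀ hp] at this
    rw [hL]; push_cast; nlinarith
  obtain ⟨φ, hφ⟩ := exists_avoid (ι := Fin L) W (fun w _ => (good w)ᶜ) (by
    have a1 : ∀ w ∈ W, ∏ _i : Fin L, (((good w)ᶜ.card : ℝ) / Fintype.card Ω) ≤
        Real.exp (-(p * L)) := fun w hw => by
      rw [prod_const, card_univ, Fintype.card_fin, show -(p * L) = (L : ℕ) * (-p) by ring,
        Real.exp_nat_mul]
      refine pow_le_pow_left₀ (by positivity) ?_ _
      rw [div_le_iff₀ c0, card_compl, Nat.cast_sub (card_le_univ _)]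
      have := Real.add_one_le_exp (-p)
      have := h w hw
      nlinarith
    refine (sum_le_card_nsmul _ _ _ a1).trans_lt ?_
    have a2 : (W.card : ℝ) ≤ Real.exp E := by
      refine le_trans (by exact_mod_cast hW : (W.card : ℝ) ≤ 2 ^ E) ?_
      rw [show (E : ℝ) = (E : ℕ) * (1 : ℝ) by ring, Real.exp_nat_mul]
      exact pow_le_pow_left₀ (by norm_num) (by linarith [Real.add_one_le_exp 1]) _
    rw [nsmul_eq_mul]
    refine (mul_le_mul_of_nonneg_right a2 (Real.exp_pos _).le).trans_lt ?_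
    rw [← Real.exp_add, Real.exp_lt_one_iff]
    linarith)
  refine ⟨univ.image φ, ?_, fun w hw => ?_⟩
  · have a1 : (univ.image φ).card ≤ L := card_image_le.trans (by simp)
    have a2 := Nat.ceil_lt_add_one (show 0 ≤ E / p by positivity)
    have a3 : ((univ.image φ).card : ℝ) ≤ (⌈E / p⌉₊ : ℝ) + 1 := by
      exact_mod_cast a1.trans hL.le
    linarith
  · obtain ⟨i, hi⟩ := hφ w hw
    exact ⟨φ i, mem_image_of_mem _ (mem_univ _), by simpa using hi⟩

/-- resampling one coordinate -/
theorem sum_one {A X : Type} [Fintype A] [DecidableEq A] [Fintype X] (P : A) (g : X → ℝ)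
    (H : (A → X) → ℝ) (hH : ∀ f x, H (Function.update f P x) = H f) :
    (Fintype.card X : ℝ) * ∑ f, g (f P) * H f = (∑ x, g x) * ∑ f, H f := by
  have e1 : (Fintype.card X : ℝ) * ∑ f, g (f P) * H f =
      ∑ q : (A → X) × X, g (q.1 P) * H q.1 := by
    rw [Fintype.sum_prod_type, mul_sum]
    simp
  have e2 : (∑ x, g x) * ∑ f, H f = ∑ q : (A → X) × X, g q.2 * H q.1 := by
    rw [Fintype.sum_prod_type_right, sum_mul_sum]
  rw [e1, e2]
  refine Fintype.sum_bijective (fun q => (Function.update q.1 P q.2, q.1 P))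
    (Function.Involutive.bijective fun q => by simp) _ _ fun q => by rw [hH]

theorem sum_coord {A X : Type} [Fintype A] [DecidableEq A] [Fintype X] (P : A) (g : X → ℝ) :
    (Fintype.card X : ℝ) * ∑ f : A → X, g (f P) = (∑ x, g x) * Fintype.card (A → X) := by
  simpa using sum_one P g (fun _ => 1) fun _ _ => rfl

theorem choose_le (n a : ℕ) (ha : 1 ≤ a) : (n.choose a : ℝ) ≤ (3 * n / a) ^ a := by
  have h1 := Nat.choose_le_pow_div (α := ℝ) a n
  have h2 := Real.pow_div_factorial_le_exp (a : ℝ) (Nat.cast_nonneg a) a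
  have h3 : Real.exp a ≤ 3 ^ a := by
    rw [show (a : ℝ) = (a : ℕ) * (1 : ℝ) by ring, Real.exp_nat_mul]
    exact pow_le_pow_left₀ (Real.exp_pos _).le (by linarith [Real.exp_one_lt_d9]) _
  have a0 : (0 : ℝ) < a := by exact_mod_cast ha
  have f0 : (0 : ℝ) < a.factorial := by exact_mod_cast a.factorial_pos
  refine h1.trans ?_
  rw [div_pow, mul_pow, div_le_div_iff₀ f0 (by positivity)]
  have h4 := (div_le_iff₀ f0).1 (h2.trans h3)
  have h5 : (0 : ℝ) ≤ (n : ℝ) ^ a := by positivity
  nlinarith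

theorem bad_card {B X : Type} [Fintype B] [DecidableEq B] [Fintype X] [DecidableEq X] [Nonempty X]
    (Y : Finset (B × X)) :
    ((univ.filter fun f : B → X => ∃ P, (P, f P) ∈ Y).card / Fintype.card (B → X) : ℝ) ≤
      Y.card / Fintype.card X := by
  have c0 : (0 : ℝ) < Fintype.card X := by exact_mod_cast Fintype.card_pos
  have c1 : (0 : ℝ) < Fintype.card (B → X) := by exact_mod_cast Fintype.card_pos
  rw [div_le_div_iff₀ c1 c0]
  have h1 : ((univ.filter fun f : B → X => ∃ P, (P, f P) ∈ Y).card : ℝ) ≤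
      ∑ f : B → X, ∑ P, if (P, f P) ∈ Y then (1 : ℝ) else 0 := by
    rw [card_filter]
    push_cast
    refine sum_le_sum fun f _ => ?_
    split_ifs with c
    · obtain ⟨P, hP⟩ := c
      refine le_trans (by simp [hP]) (single_le_sum (f := fun P => if (P, f P) ∈ Y then (1 : ℝ)
        else 0) (fun _ _ => by positivity) (mem_univ P))
    · positivity
  have h2 : (Y.card : ℝ) = ∑ P, ∑ x, if (P, x) ∈ Y then (1 : ℝ) else 0 := by
    rw [← Fintype.sum_prod_type (f := fun q => if q ∈ Y then (1 : ℝ) else 0)]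
    simp
  rw [h2, sum_mul]
  refine (mul_le_mul_of_nonneg_right h1 c0.le).trans (le_of_eq ?_)
  rw [sum_comm, sum_mul]
  exact sum_congr rfl fun P _ => by
    rw [mul_comm, sum_coord P fun x => if (P, x) ∈ Y then (1 : ℝ) else 0]

/-- expansion of small sets -/
theorem expand {Λ B X : Type} [Fintype Λ] [DecidableEq Λ] [Fintype B] [DecidableEq B] [Nonempty B]
    [Fintype X] [DecidableEq X] [Nonempty X] (L : ℕ) (hΛ : Fintype.card Λ ≤ L * Fintype.card X)
    (hB : Fintype.card B ≤ L) :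
    ∃ φ : Λ × Fin (126 * L + 9) → B → X, ∀ U : Finset Λ, U.Nonempty →
      12 * U.card ≤ Fintype.card X → ∀ Y : Finset (B × X), Y.card ≤ 6 * U.card →
      ∃ l ∈ U, ∃ c, ∀ P, (P, φ (l, c) P) ∉ Y := by
  classical
  obtain ⟨Q, hQ⟩ : ∃ Q, Q = Fintype.card X := ⟨_, rfl⟩
  have q0 : (0 : ℝ) < Q := by rw [hQ]; exact_mod_cast Fintype.card_pos
  have b0 : 1 ≤ Fintype.card B := Fintype.card_pos
  obtain ⟨φ, hφ⟩ := exists_avoid (ι := Λ × Fin (126 * L + 9)) (Ω := B → X)
    ((Ioc 0 (Q / 12)).sigma fun a => powersetCard a (univ : Finset Λ) ×ˢ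
      powersetCard (6 * a) (univ : Finset (B × X)))
    (fun w i => if i.1 ∈ w.2.1 then univ.filter fun f : B → X => ∃ P, (P, f P) ∈ w.2.2 else univ) (by
    rw [sum_sigma]
    have a1 : ∀ a ∈ Ioc 0 (Q / 12), ∑ w ∈ powersetCard a (univ : Finset Λ) ×ˢ
        powersetCard (6 * a) (univ : Finset (B × X)), ∏ i : Λ × Fin (126 * L + 9),
        (((if i.1 ∈ w.1 then univ.filter fun f : B → X => ∃ P, (P, f P) ∈ w.2 else univ).card : ℝ) /
          Fintype.card (B → X)) ≤ (1 / 4) ^ a := by
      intro a ha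
      rw [mem_Ioc] at ha
      have a0 : (0 : ℝ) < a := by exact_mod_cast ha.1
      have a12 : (12 * a : ℝ) ≤ Q := by exact_mod_cast (by omega : 12 * a ≤ Q)
      have b1 : ∀ w ∈ powersetCard a (univ : Finset Λ) ×ˢ
          powersetCard (6 * a) (univ : Finset (B × X)), ∏ i : Λ × Fin (126 * L + 9),
          (((if i.1 ∈ w.1 then univ.filter fun f : B → X => ∃ P, (P, f P) ∈ w.2
            else univ).card : ℝ) / Fintype.card (B → X)) ≤
            ((6 * a / Q : ℝ) ^ (126 * L + 9)) ^ a := by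
        intro w hw
        simp only [mem_product, mem_powersetCard] at hw
        have c1 := bad_card w.2
        rw [hw.2.2, ← hQ] at c1
        push_cast at c1
        have c2 : (0 : ℝ) < Fintype.card (B → X) := by exact_mod_cast Fintype.card_pos
        refine (prod_le_prod (g := fun i : Λ × Fin (126 * L + 9) => if i.1 ∈ w.1 then
          (6 * a / Q : ℝ) else 1) (fun _ _ => by positivity) fun i _ => ?_).trans (le_of_eq ?_)
        · split_ifs
          · exact c1
          · rw [card_univ, div_self c2.ne']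
        · rw [Fintype.prod_prod_type]
          have d1 : ∀ x : Λ, ∏ _c : Fin (126 * L + 9), (if x ∈ w.1 then (6 * a / Q : ℝ) else 1) =
              if x ∈ w.1 then (6 * a / Q : ℝ) ^ (126 * L + 9) else 1 := fun x => by
            rw [prod_const, card_univ, Fintype.card_fin, ite_pow, one_pow]
          refine (prod_congr rfl fun x _ => d1 x).trans ?_
          rw [prod_ite_mem, univ_inter, prod_const, hw.1.2]
      refine (sum_le_card_nsmul _ _ _ b1).trans ?_
      rw [card_product, card_powersetCard, card_powersetCard, card_univ, card_univ, nsmul_eq_mul,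
        Nat.cast_mul]
      have c1 : ((Fintype.card Λ).choose a : ℝ) ≤ (3 * (L * Q) / a) ^ a :=
        (choose_le _ a ha.1).trans (by
          gcongr; rw [hQ]; exact_mod_cast hΛ)
      have c2 : ((Fintype.card (B × X)).choose (6 * a) : ℝ) ≤ ((3 * (L * Q) / a) ^ 6) ^ a := by
        refine (choose_le _ _ (by omega)).trans ?_
        rw [← pow_mul]
        gcongr
        · rw [Fintype.card_prod, ← hQ]; exact_mod_cast Nat.mul_le_mul_right _ hB
        · omega
      refine (mul_le_mul_of_nonneg_right (mul_le_mul c1 c2 (by positivity) (by positivity))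
        (by positivity)).trans ?_
      rw [← mul_pow, ← mul_pow]
      refine pow_le_pow_left₀ (by positivity) ?_ _
      have c3 : (6 * a / Q : ℝ) ≤ 1 / 2 := by rw [div_le_iff₀ q0]; linarith
      have c4 : (18 * L : ℝ) ≤ 2 ^ (18 * L) := by exact_mod_cast (Nat.lt_two_pow_self).le
      calc _ = (18 * L : ℝ) ^ 7 * (6 * a / Q) ^ (126 * L + 2) := by
            rw [show 126 * L + 9 = 7 + (126 * L + 2) by ring, pow_add, ← mul_assoc]
            congr 1
            field_simp
            ring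
        _ ≤ (2 ^ (18 * L)) ^ 7 * (1 / 2) ^ (126 * L + 2) := by gcongr
        _ = 1 / 4 := by
            rw [← pow_mul, show 18 * L * 7 = 126 * L by ring, pow_add, ← mul_assoc, ← mul_pow]
            norm_num
    refine (sum_le_sum a1).trans_lt ?_
    have a2 : ∀ m : ℕ, ∑ a ∈ Ioc 0 m, (1 / 4 : ℝ) ^ a ≤ 1 / 2 - (1 / 4) ^ m / 2 := fun m => by
      induction m with
      | zero => simp
      | succ m ih =>
        rw [sum_Ioc_succ_top (Nat.zero_le _), pow_succ]
        have : (0 : ℝ) ≤ (1 / 4) ^ m := by positivity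
        linarith
    have : (0 : ℝ) ≤ (1 / 4) ^ (Q / 12) := by positivity
    linarith [a2 (Q / 12)])
  refine ⟨φ, fun U hU h12 Y hY => ?_⟩
  obtain ⟨Y', h1, -, h2⟩ := exists_subsuperset_card_eq (subset_univ Y) hY (by
    rw [card_univ, Fintype.card_prod]
    exact le_trans (by omega) (Nat.le_mul_of_pos_left _ b0))
  obtain ⟨⟨l, c⟩, hi⟩ := hφ ⟨U.card, U, Y'⟩ (by
    simp only [mem_sigma, mem_Ioc, mem_product, mem_powersetCard, subset_univ, h2,
      and_true]
    exact ⟨hU.card_pos, by omega⟩)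
  by_cases hl : l ∈ U
  · exact ⟨l, hl, c, fun P hP => hi (by simpa [hl] using ⟨P, h1 hP⟩)⟩
  · simp [hl] at hi

end Pool.Agent.Lib.MP_270b52_co.Kh
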