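import Pool.Agent.Lib.MP_270b52_co.Kh.A

/-! Survival of edges of a blown up system. -/

set_option autoImplicit false

namespace Pool.Agent.Lib.MP_270b52_co.Kh

open Finset

variable {A X : Type} [Fintype A] [DecidableEq A] [Fintype X] [DecidableEq X]

structure Top (F : Finset (Finset A)) (k n : ℕ) : Prop where
  big : ∀ S ∈ F, k ≤ S.card
  tau : ∀ C : Finset A, C.card < k → ∃ S ∈ F, Disjoint S C
  le : Fintype.card A ≤ n
  two : 2 * k ≤ Fintype.card A
  pos : 1 ≤ k

variable {F : Finset (Finset A)} {k n : ℕ}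

theorem Top.greedy (h : Top F k n) (j : ℕ) : ∀ T : Finset A, T.card + j < k →
    Real.exp (k / n * j) ≤ (F.filter (Disjoint · T)).card := by
  have n0 : (0 : ℝ) < n := by exact_mod_cast (by have := h.le; have := h.two; have := h.pos; omega)
  induction j with
  | zero =>
    intro T hT
    obtain ⟨S, h1, h2⟩ := h.tau T hT
    have : 1 ≤ (F.filter (Disjoint · T)).card := card_pos.2 ⟨S, mem_filter.2 ⟨h1, h2⟩⟩
    simpa using this
  | succ j ih =>
    intro T hT
    set G := F.filter (Disjoint · T) with hG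
    have ne : (univ : Finset A).Nonempty := by
      rw [← card_pos, card_univ]; have := h.two; have := h.pos; omega
    obtain ⟨P, -, hP⟩ := exists_le_of_sum_le (f := fun _ : A => (k / n * G.card : ℝ))
      (g := fun P => ((G.filter (P ∈ ·)).card : ℝ)) ne (by
      have a1 : ∑ P, ((G.filter (P ∈ ·)).card : ℝ) = ∑ S ∈ G, (S.card : ℝ) := by
        simp only [card_filter]
        push_cast
        rw [sum_comm]
        exact sum_congr rfl fun S _ => by simp
      have a2 : (G.card : ℝ) * k ≤ ∑ S ∈ G, (S.card : ℝ) := by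
        rw [← nsmul_eq_mul]
        exact card_nsmul_le_sum _ _ _ fun S hS => by exact_mod_cast h.big S (mem_filter.1 hS).1
      have a3 : (Fintype.card A : ℝ) ≤ n := by exact_mod_cast h.le
      rw [a1, sum_const, card_univ, nsmul_eq_mul]
      refine le_trans ?_ a2
      calc _ ≤ n * (k / n * G.card : ℝ) := by gcongr
        _ = _ := by field_simp)
    have a4 := ih (insert P T) (by have := card_insert_le P T; omega)
    have a5 : F.filter (Disjoint · (insert P T)) = G.filter (fun S => ¬P ∈ S) := by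
      ext S; simp [hG]; tauto
    have a6 : ((G.filter (P ∈ ·)).card : ℝ) + (G.filter (fun S => ¬P ∈ S)).card = G.card := by
      exact_mod_cast card_filter_add_card_filter_not (s := G) (P ∈ ·)
    rw [a5] at a4
    have a7 := Real.add_one_le_exp (-(k / n : ℝ))
    have a8 : Real.exp (k / n * j) ≤ Real.exp (-(k / n : ℝ)) * G.card := by
      have : (0 : ℝ) ≤ G.card := by positivity
      nlinarith
    have a9 := mul_le_mul_of_nonneg_left a8 (Real.exp_pos (k / n)).le
    rw [← mul_assoc, ← Real.exp_add, ← Real.exp_add] at a9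
    simp only [add_neg_cancel, Real.exp_zero, one_mul] at a9
    refine le_trans (le_of_eq ?_) a9
    congr 1
    push_cast; ring

/-- the fibre over a point -/
def fb (Y : Finset (A × X)) (P : A) : ℕ := (univ.filter fun x => (P, x) ∈ Y).card

omit [Fintype A] in
theorem fb_le (Y : Finset (A × X)) (P : A) : fb Y P ≤ Fintype.card X :=
  card_le_univ _

theorem sum_fb (Y : Finset (A × X)) : ∑ P, fb Y P = Y.card := by
  simp only [fb, card_filter]
  rw [← Fintype.sum_prod_type (f := fun q => if q ∈ Y then 1 else 0)]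
  simp

/-- the points hit by a section -/
def hit (Y : Finset (A × X)) (f : A → X) : Finset A := univ.filter fun P => (P, f P) ∈ Y

theorem markov (Y : Finset (A × X)) (P : A) (t : ℕ) :
    (Fintype.card (A → X) : ℝ) * ((Fintype.card X - fb Y P) *
      (t * Fintype.card X - Y.card + fb Y P)) ≤
      (Fintype.card X : ℝ) ^ 2 * (t * (univ.filter fun f => (hit Y f).card < t).card) := by
  have hc : ∀ R, ∑ x, (if (R, x) ∈ Y then (1 : ℝ) else 0) = fb Y R := fun R => by simp [fb]
  have e1 := sum_one P (fun x => 1 - if (P, x) ∈ Y then (1 : ℝ) else 0)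
    (fun f => t - ∑ R ∈ univ.erase P, if (R, f R) ∈ Y then (1 : ℝ) else 0) fun f x => by
      congr 1
      exact sum_congr rfl fun R hR => by rw [Function.update_of_ne (mem_erase.1 hR).1]
  have e2 : (Fintype.card X : ℝ) * ∑ f : A → X, ((t : ℝ) - ∑ R ∈ univ.erase P,
      if (R, f R) ∈ Y then (1 : ℝ) else 0) =
      Fintype.card (A → X) * (t * Fintype.card X - Y.card + fb Y P) := by
    rw [sum_sub_distrib, sum_comm, mul_sub, mul_sum (univ.erase P), sum_congr rfl fun R _ =>
      sum_coord R fun x => if (R, x) ∈ Y then (1 : ℝ) else 0, ← sum_mul, sum_congr rfl fun R _ => hc R,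
      sum_erase_eq_sub (mem_univ P), sum_const, card_univ, nsmul_eq_mul, ← Nat.cast_sum, sum_fb]
    ring
  have e3 : ∑ f : A → X, (1 - if (P, f P) ∈ Y then (1 : ℝ) else 0) * ((t : ℝ) -
      ∑ R ∈ univ.erase P, if (R, f R) ∈ Y then (1 : ℝ) else 0) ≤
      t * (univ.filter fun f => (hit Y f).card < t).card := by
    rw [card_filter]
    push_cast
    rw [mul_sum]
    refine sum_le_sum fun f _ => ?_
    have a1 : ∑ R, (if (R, f R) ∈ Y then (1 : ℝ) else 0) = (hit Y f).card := by simp [hit]
    rw [sum_erase_eq_sub (mem_univ P), a1]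
    have a2 : (0 : ℝ) ≤ (hit Y f).card := by positivity
    have a3 : (0 : ℝ) ≤ t := by positivity
    split_ifs with c1 c2 c2
    · linarith
    · linarith
    · linarith
    · have : (t : ℝ) ≤ (hit Y f).card := by exact_mod_cast not_lt.1 c2
      linarith
  rw [sum_sub_distrib, hc, sum_const, card_univ, nsmul_eq_mul, mul_one] at e1
  have q0 : (0 : ℝ) ≤ Fintype.card X := by positivity
  calc _ = (Fintype.card X - fb Y P : ℝ) * (Fintype.card (A → X) *
        (t * Fintype.card X - Y.card + fb Y P)) := by ring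
    _ = _ := by rw [← e2, mul_left_comm, ← e1]
    _ ≤ _ := by rw [sq, mul_assoc]; gcongr

/-- an edge of the blown up system avoids `Y` -/
def Av (Y : Finset (A × X)) (e : Finset A × (A → X)) : Prop := ∀ P ∈ e.1, (P, e.2 P) ∉ Y

instance (Y : Finset (A × X)) : DecidablePred (Av Y) := fun e =>
  inferInstanceAs (Decidable (∀ P ∈ e.1, (P, e.2 P) ∉ Y))

theorem Top.many (h : Top F k n) [Nonempty X] (Y : Finset (A × X)) (P : A) (t : ℕ) (ht : t ≤ k)
    (ht2 : (t : ℝ) ≤ Y.card / Fintype.card X + 2)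
    (hP : (Fintype.card X : ℝ) ^ 2 / (144 * n ^ 2) ≤ (Fintype.card X - fb Y P) *
      (t * Fintype.card X - Y.card + fb Y P)) :
    (Fintype.card (A → X) : ℝ) * (Real.exp (k / n * (k - Y.card / Fintype.card X - 2)) /
      (144 * n ^ 2 * k)) ≤ ((F ×ˢ univ).filter (Av Y)).card := by
  have n0 : (0 : ℝ) < n := by exact_mod_cast (by have := h.le; have := h.two; have := h.pos; omega)
  have k0 : (0 : ℝ) < k := by exact_mod_cast h.pos
  have q0 : (0 : ℝ) < Fintype.card X := by exact_mod_cast Fintype.card_pos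
  have tk : (t : ℝ) ≤ k := by exact_mod_cast ht
  set Z := univ.filter fun f => (hit Y f).card < t with hZ
  have a1 : (Fintype.card (A → X) : ℝ) / (144 * n ^ 2 * k) ≤ Z.card := by
    have b1 := (mul_le_mul_of_nonneg_left hP (Nat.cast_nonneg (Fintype.card (A → X)))).trans
      (markov Y P t)
    have b2 : (Fintype.card X : ℝ) ^ 2 * (Fintype.card (A → X) / (144 * n ^ 2)) ≤
        (Fintype.card X : ℝ) ^ 2 * (k * Z.card) :=
      le_trans (le_of_eq (by ring)) (b1.trans (by gcongr))
    have b3 := le_of_mul_le_mul_left b2 (by positivity)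
    rw [← div_div, div_le_iff₀ k0]
    linarith
  have a2 : (((F ×ˢ univ).filter (Av Y)).card : ℝ) =
      ∑ f, ((F.filter (Disjoint · (hit Y f))).card : ℝ) := by
    simp only [card_filter]
    push_cast
    rw [sum_product_right]
    refine sum_congr rfl fun f _ => sum_congr rfl fun S _ => ?_
    simp [Av, hit, disjoint_left]
  have a3 : (Z.card : ℝ) * Real.exp (k / n * (k - Y.card / Fintype.card X - 2)) ≤
      ∑ f ∈ Z, ((F.filter (Disjoint · (hit Y f))).card : ℝ) := by
    rw [← nsmul_eq_mul]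
    refine card_nsmul_le_sum _ _ _ fun f hf => le_trans ?_ (h.greedy (k - t) _ (by
      have := (mem_filter.1 hf).2; omega))
    rw [Nat.cast_sub ht]
    exact Real.exp_le_exp.2 (mul_le_mul_of_nonneg_left (by linarith) (by positivity))
  rw [a2]
  refine le_trans ?_ (a3.trans (sum_le_sum_of_subset_of_nonneg (subset_univ _)
    fun _ _ _ => by positivity))
  calc _ = (Fintype.card (A → X) : ℝ) / (144 * n ^ 2 * k) *
        Real.exp (k / n * (k - Y.card / Fintype.card X - 2)) := by ring
    _ ≤ _ := by gcongr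

theorem small (Z : Finset (A × X)) (hA : Fintype.card A ≤ n) (hn : 0 < n)
    (h : ∀ P, 12 * n * fb Z P ≤ Fintype.card X) : 12 * Z.card ≤ Fintype.card X := by
  have a1 := sum_le_card_nsmul univ _ _ fun P _ => h P
  rw [← mul_sum, sum_fb, card_univ, smul_eq_mul] at a1
  refine Nat.le_of_mul_le_mul_left (c := n) ?_ hn
  calc _ = 12 * n * Z.card := by ring
    _ ≤ _ := a1.trans (Nat.mul_le_mul_right _ hA)

theorem Top.surv (h : Top F k n) [Nonempty X] (Y : Finset (A × X))
    (hY : Y.card < k * Fintype.card X) :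
    (∃ U B : Finset (A × X), U.Nonempty ∧ 12 * U.card ≤ Fintype.card X ∧ B.card < U.card ∧
      k * Fintype.card X ≤ Y.card + U.card ∧ ∀ l ∈ U, l ∉ Y ∧ ∃ S ∈ F, ∀ P ∈ S, P ≠ l.1 →
        ∀ x, (P, x) ∈ Y → (P, x) ∈ B) ∨
    (Fintype.card (A → X) : ℝ) * (Real.exp (k / n * (k - Y.card / Fintype.card X - 2)) /
      (144 * n ^ 2 * k)) ≤ ((F ×ˢ univ).filter (Av Y)).card := by
  have hn : 0 < n := by have := h.le; have := h.two; have := h.pos; omega
  have n1 : (1 : ℝ) ≤ n := by exact_mod_cast hn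
  have hq : 0 < Fintype.card X := Fintype.card_pos
  have ne : (univ : Finset A).Nonempty := by
    rw [← card_pos, card_univ]; have := h.two; have := h.pos; omega
  obtain ⟨P0, -, h0⟩ := exists_min_image univ (fb Y) ne
  have hfl := fb_le Y
  have man := h.many Y
  generalize hQ : Fintype.card X = Q at *
  have q0 : (0 : ℝ) < Q := by exact_mod_cast hq
  have a1 : 2 * fb Y P0 ≤ Q := by
    have b1 := card_nsmul_le_sum univ _ _ h0
    rw [sum_fb, card_univ, smul_eq_mul] at b1
    have b2 := Nat.mul_le_mul_right (fb Y P0) h.two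
    refine Nat.le_of_mul_le_mul_left (c := k) ?_ h.pos
    nlinarith
  have a1' : (2 * fb Y P0 : ℝ) ≤ Q := by exact_mod_cast a1
  have a2 : ((Y.card / Q : ℕ) : ℝ) ≤ Y.card / Q := Nat.cast_div_le
  have a3 : (Q : ℝ) ^ 2 / (144 * n ^ 2) ≤ Q / 2 * (Q / 2) := by
    rw [div_le_iff₀ (by positivity)]
    have : (1 : ℝ) ≤ n ^ 2 := one_le_pow₀ n1
    nlinarith [sq_nonneg (Q : ℝ)]
  have f0 : (0 : ℝ) ≤ fb Y P0 := by positivity
  by_cases c1 : Y.card / Q + 2 ≤ k
  · refine Or.inr (man P0 _ c1 (by push_cast; linarith) (a3.trans ?_))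
    have b1 : (Y.card : ℝ) ≤ ((Y.card / Q : ℕ) + 1) * Q := by
      exact_mod_cast (Nat.lt_div_mul_add hq).le.trans (le_of_eq (by ring))
    push_cast
    exact mul_le_mul (by linarith) (by linarith) (by positivity) (by linarith)
  have a4 : (k : ℝ) ≤ Y.card / Q + 2 := by
    have : (k : ℝ) ≤ ((Y.card / Q : ℕ) : ℝ) + 2 := by exact_mod_cast (not_le.1 c1).le
    linarith
  by_cases c2 : 2 * Y.card + Q ≤ 2 * (k * Q)
  · refine Or.inr (man P0 _ le_rfl a4 (a3.trans ?_))
    have b1 : (2 * Y.card + Q : ℝ) ≤ 2 * (k * Q) := by exact_mod_cast c2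
    exact mul_le_mul (by linarith) (by linarith) (by positivity) (by linarith)
  by_cases c3 : ∃ P, Q ≤ 12 * n * fb Y P ∧ Q ≤ 12 * n * (Q - fb Y P)
  · obtain ⟨P, b1, b2⟩ := c3
    refine Or.inr (man P _ le_rfl a4 ?_)
    have b3 : (Q : ℝ) ≤ 12 * n * fb Y P := by exact_mod_cast b1
    have b4 : (Q : ℝ) ≤ 12 * n * (Q - fb Y P) := by
      rw [← Nat.cast_sub (hfl P)]; exact_mod_cast b2
    have b5 : (Y.card : ℝ) ≤ k * Q := by exact_mod_cast hY.le
    have b6 : (Q : ℝ) / (12 * n) ≤ Q - fb Y P := by rw [div_le_iff₀ (by positivity)]; linarith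
    have b7 : (Q : ℝ) / (12 * n) ≤ fb Y P := by rw [div_le_iff₀ (by positivity)]; linarith
    calc _ = (Q : ℝ) / (12 * n) * (Q / (12 * n)) := by field_simp; norm_num
      _ ≤ _ := mul_le_mul b6 (by linarith) (by positivity) (le_trans (by positivity) b6)
  push Not at c3
  set C := univ.filter fun P => Q ≤ 12 * n * fb Y P with hC
  set D : Finset (A × X) := C ×ˢ univ with hD
  have d1 : D.card = C.card * Q := by rw [hD, card_product, card_univ, hQ]
  have u1 : 12 * (D \ Y).card ≤ Q := hQ ▸ small _ h.le hn fun P => by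
    rw [hQ]
    by_cases c : P ∈ C
    · have b1 : fb (D \ Y) P + fb Y P = Q := by
        rw [← hQ, ← card_univ, ← card_filter_add_card_filter_not (fun x => (P, x) ∈ Y), add_comm]
        unfold fb
        congr 2
        ext x; simp [hD, c]
      have := c3 P (mem_filter.1 c).2
      rw [show fb (D \ Y) P = Q - fb Y P by omega]; omega
    · rw [show fb (D \ Y) P = 0 by simp [fb, hD, c]]; omega
  have u2 : 12 * (Y \ D).card ≤ Q := hQ ▸ small _ h.le hn fun P => by
    rw [hQ]
    by_cases c : P ∈ C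
    · rw [show fb (Y \ D) P = 0 by simp [fb, hD, c]]; omega
    · rw [show fb (Y \ D) P = fb Y P by simp [fb, hD, c]]
      simp only [hC, mem_filter, mem_univ, true_and] at c; omega
  have u3 := card_sdiff_add_card_inter D Y
  have u4 := card_sdiff_add_card_inter Y D
  rw [inter_comm] at u4
  have u5 : C.card = k := by
    rcases lt_trichotomy C.card k with c | c | c
    · have := Nat.mul_le_mul_right Q (Nat.succ_le_of_lt c)
      rw [Nat.succ_mul] at this; omega
    · exact c
    · have := Nat.mul_le_mul_right Q (Nat.succ_le_of_lt c)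
      rw [Nat.succ_mul] at this; omega
  rw [u5] at d1
  refine Or.inl ⟨D \ Y, Y \ D, card_pos.1 (by omega), u1, by omega, by omega, fun l hl =>
    ⟨(mem_sdiff.1 hl).2, ?_⟩⟩
  have l1 : l.1 ∈ C := (mem_product.1 (mem_sdiff.1 hl).1).1
  obtain ⟨S, s1, s2⟩ := h.tau (C.erase l.1) (by
    rw [card_erase_of_mem l1]; have := h.pos; omega)
  exact ⟨S, s1, fun P hP hne x hx => mem_sdiff.2 ⟨hx, fun hm => disjoint_left.1 s2 hP
    (mem_erase.2 ⟨hne, (mem_product.1 hm).1⟩)⟩⟩

end Pool.Agent.Lib.MP_270b52_co.Kh
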