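import Mathlib

/-! The design with a clique column, and the padding block. -/

set_option autoImplicit false

namespace Pool.Agent.Lib.MP_270b52_co.Kh

open Finset

structure Des (X Ω : Type) [Fintype X] where
  cl : Bool → X → Finset Ω
  od : Option Bool → X → Finset Ω
  cl_card : ∀ σ u, (cl σ u).card ≤ Fintype.card X
  od_card : ∀ c w, (od c w).card ≤ Fintype.card X
  cl_cl : ∀ σ u v, ∃ p, p ∈ cl σ u ∧ p ∈ cl σ v
  cl_od : ∀ σ u c w, ∃ p, p ∈ cl σ u ∧ p ∈ od c w
  od_od : ∀ c c' w w', c ≠ c' → ∃ p, p ∈ od c w ∧ p ∈ od c' w'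
  od_one : ∀ c p, ∃ w, ∀ w', p ∈ od c w' → w' = w
  cl_two : ∀ p, ∃ Z : Finset (Bool × X), Z.card ≤ 2 ∧ ∀ σ u, p ∈ cl σ u → (σ, u) ∈ Z

variable {R : Type} [CommRing R] [Fintype R] [DecidableEq R]

omit [DecidableEq R] in
theorem exists_chi {g : R} (hg : g ^ 2 + g + 1 = 0) (h2 : IsUnit (2 : R)) :
    ∃ χ : R → Bool, (∀ a, a ≠ 0 → χ (-a) = !χ a) ∧ ∀ a, χ (g * a) = χ a := by
  let e := Fintype.equivFin R
  let s : R → Bool := fun a => decide (e a < e (-a))
  have hs : ∀ a, a ≠ 0 → s (-a) = !s a := fun a ha => by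
    have : e a ≠ e (-a) := fun h => ha (h2.mul_right_eq_zero.1 (by
      linear_combination e.injective h))
    simp only [s, neg_neg, ← decide_not, decide_eq_decide]
    omega
  have g3 : ∀ a, g * (g * (g * a)) = a := fun a => by linear_combination a * (g - 1) * hg
  have g0 : ∀ a, a ≠ 0 → g * a ≠ 0 := fun a ha h => ha (by
    rw [← g3 a, h, mul_zero, mul_zero])
  refine ⟨fun a => xor (s a) (xor (s (g * a)) (s (g * (g * a)))), fun a ha => ?_, fun a => ?_⟩
  · simp only [mul_neg, hs a ha, hs _ (g0 a ha), hs _ (g0 _ (g0 a ha))]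
    cases s a <;> cases s (g * a) <;> cases s (g * (g * a)) <;> rfl
  · simp only [g3]
    cases s a <;> cases s (g * a) <;> cases s (g * (g * a)) <;> rfl

theorem exists_des {g : R} (hg : g ^ 2 + g + 1 = 0) (h2 : IsUnit (2 : R)) (h1 : IsUnit (1 - g)) :
    Nonempty (Des R (R × R)) := by
  obtain ⟨χ, c1, c2⟩ := exists_chi hg h2
  have ug : IsUnit g := IsUnit.of_mul_eq_one (-g - 1) (by linear_combination -hg)
  have ug1 : IsUnit (1 + g) := IsUnit.of_mul_eq_one (-g) (by linear_combination -hg)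
  have p0 : ∀ a σ, (a = 0 ∨ χ a = σ) ∨ χ (-a) = σ := fun a σ => by
    by_cases h : a = 0
    · exact Or.inl (Or.inl h)
    · rw [c1 a h]; cases χ a <;> cases σ <;> simp
  have p1 : ∀ a σ, (a = 0 ∨ χ a = σ) ∨ χ (g * -a) = σ := fun a σ => by rw [c2]; exact p0 a σ
  have p2 : ∀ a σ, (a = 0 ∨ χ a = σ) ∨ χ (g * (g * -a)) = σ := fun a σ => by
    rw [c2]; exact p1 a σ
  let ν : Option Bool → R := fun c => match c with
    | none => 1 - g
    | some true => 0
    | some false => 2 * (1 - g)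
  refine ⟨⟨fun σ u => univ.filter fun p => (p.2 = 0 ∨ χ p.2 = σ) ∧
      (p.1 + 2 * p.2 = u ∨ p.1 - 2 * g * p.2 = u),
    fun c w => univ.filter fun p => p.1 + ν c * p.2 = w, fun σ u => ?_, fun c w => ?_,
    fun σ u v => ?_, fun σ u c w => ?_, fun c c' w w' h => ?_, fun c p => ?_, fun p => ?_⟩⟩
  · refine le_trans (card_le_card (t := univ.image fun a => if a = 0 ∨ χ a = σ then (u - 2 * a, a)
      else (u - 2 * g * a, -a)) fun p hp => ?_) card_image_le
    obtain ⟨a1, a2⟩ := (mem_filter.1 hp).2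
    by_cases c : p.1 + 2 * p.2 = u
    · exact mem_image.2 ⟨p.2, mem_univ _, by rw [if_pos a1, ← c]; simp⟩
    · have a3 := a2.resolve_left c
      have a4 : p.2 ≠ 0 := fun h => c (by rw [← a3, h]; simp)
      refine mem_image.2 ⟨-p.2, mem_univ _, ?_⟩
      rw [if_neg, ← a3]
      · simp
      · rw [c1 _ a4, a1.resolve_left a4]; simp [a4]
  · refine le_trans (card_le_card (t := univ.image fun a => (w - ν c * a, a)) fun p hp => ?_)
      card_image_le
    exact mem_image.2 ⟨p.2, mem_univ _, by rw [← (mem_filter.1 hp).2]; simp⟩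
  · obtain ⟨a, ha⟩ := (h2.mul ug1).dvd (a := u - v)
    simp only [mem_filter, mem_univ, true_and]
    rcases p0 a σ with h | h
    · exact ⟨(u - 2 * a, a), ⟨h, Or.inl (by ring)⟩, h, Or.inr (by linear_combination ha)⟩
    · exact ⟨(v + 2 * a, -a), ⟨Or.inr h, Or.inr (by linear_combination -ha)⟩, Or.inr h,
        Or.inl (by ring)⟩
  · simp only [mem_filter, mem_univ, true_and]
    rcases c with _ | _ | _
    · obtain ⟨a, ha⟩ := ug1.dvd (a := u - w)
      rcases p0 a σ with h | h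
      · exact ⟨(u - 2 * a, a), ⟨h, Or.inl (by ring)⟩, by simp only [ν]; linear_combination ha⟩
      · exact ⟨(u - 2 * g * a, -a), ⟨Or.inr h, Or.inr (by ring)⟩, by
          simp only [ν]; linear_combination ha⟩
    · obtain ⟨a, ha⟩ := (h2.mul ug).dvd (a := u - w)
      rcases p1 a σ with h | h
      · exact ⟨(u - 2 * a, a), ⟨h, Or.inl (by ring)⟩, by simp only [ν]; linear_combination ha⟩
      · exact ⟨(u + 2 * g * (g * -a), g * -a), ⟨Or.inr h, Or.inr (by ring)⟩, by
          simp only [ν]; linear_combination ha⟩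
    · obtain ⟨a, ha⟩ := h2.dvd (a := u - w)
      rcases p2 a σ with h | h
      · exact ⟨(u - 2 * a, a), ⟨h, Or.inl (by ring)⟩, by simp only [ν]; linear_combination ha⟩
      · exact ⟨(u + 2 * g * (g * (g * -a)), g * (g * -a)), ⟨Or.inr h, Or.inr (by ring)⟩, by
          simp only [ν]; linear_combination ha - 2 * a * (g - 1) * hg⟩
  · have u1 : IsUnit (ν c - ν c') := by
      have b1 := h1.neg
      have b2 := h2.mul h1
      have b3 := b2.neg
      rcases c with _ | _ | _ <;> rcases c' with _ | _ | _ <;> simp only [ν] <;>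
        first
        | exact absurd rfl h
        | (convert h1 using 1; ring1)
        | (convert b1 using 1; ring1)
        | (convert b2 using 1; ring1)
        | (convert b3 using 1; ring1)
    obtain ⟨a, ha⟩ := u1.dvd (a := w - w')
    simp only [mem_filter, mem_univ, true_and]
    exact ⟨(w - ν c * a, a), by ring, by linear_combination ha⟩
  · exact ⟨_, fun w' h => (mem_filter.1 h).2.symm⟩
  · by_cases h : p.2 = 0
    · refine ⟨{(true, p.1), (false, p.1)}, card_le_two, fun σ u hp => ?_⟩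
      have : u = p.1 := by
        rcases (mem_filter.1 hp).2.2 with a | a <;> rw [← a, h] <;> simp
      cases σ <;> simp [this]
    · refine ⟨{(χ p.2, p.1 + 2 * p.2), (χ p.2, p.1 - 2 * g * p.2)}, card_le_two,
        fun σ u hp => ?_⟩
      obtain ⟨a1, a2⟩ := (mem_filter.1 hp).2
      rcases a2 with a | a <;> simp [← a, a1.resolve_left h]

theorem exists_des' (h : ℕ) : Nonempty (Des (ZMod (9 * h ^ 2 + 3 * h + 1))
    (ZMod (9 * h ^ 2 + 3 * h + 1) × ZMod (9 * h ^ 2 + 3 * h + 1))) := by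
  have h0 : ((9 * h ^ 2 + 3 * h + 1 : ℕ) : ZMod (9 * h ^ 2 + 3 * h + 1)) = 0 := ZMod.natCast_self _
  obtain ⟨c, hc⟩ : ∃ c, h ^ 2 + h = c + c := by
    have := Nat.even_mul_succ_self h
    rwa [mul_add, mul_one, ← sq] at this
  have h1 : ((h : ZMod (9 * h ^ 2 + 3 * h + 1)) ^ 2 + h) = c + c := by exact_mod_cast congrArg _ hc
  push_cast at h0
  refine exists_des (g := 3 * h) (by linear_combination h0)
    (IsUnit.of_mul_eq_one (-(4 * h ^ 2 + h + c)) (by linear_combination -h0 + h1))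
    (IsUnit.of_mul_eq_one (-(3 * h + 2) * (3 * h ^ 2 + h)) ?_)
  linear_combination (3 * h ^ 2 + h - 1) * h0

theorem exists_pad (J : Type) [Fintype J] (ρ : ℕ) (hJ : 2 * ρ + 1 ≤ Fintype.card J) :
    ∃ t : J → ZMod (2 * ρ + 1) → Fin (ρ + 1), (∀ u v, ∃ j, t j u = t j v) ∧
      ∀ j τ, ∃ Z : Finset (ZMod (2 * ρ + 1)), Z.card ≤ 2 ∧ ∀ u, t j u = τ → u ∈ Z := by
  obtain ⟨e⟩ : Nonempty (ZMod (2 * ρ + 1) ↪ J) :=
    Function.Embedding.nonempty_of_card_le (by rwa [ZMod.card])
  obtain ⟨d, hd⟩ := e.injective.hasLeftInverse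
  refine ⟨fun j u => ⟨(u - d j).valMinAbs.natAbs, by
    have := ZMod.natAbs_valMinAbs_le (u - d j); omega⟩, fun u v => ?_, fun j τ => ?_⟩
  · refine ⟨e ((ρ + 1) * (u + v)), Fin.ext (ZMod.natAbs_valMinAbs_eq_natAbs_valMinAbs.2
      (Or.inr ?_))⟩
    have h0 : ((2 * ρ + 1 : ℕ) : ZMod (2 * ρ + 1)) = 0 := ZMod.natCast_self _
    push_cast at h0
    rw [hd]
    linear_combination -(u + v) * h0
  · by_cases h : ∃ u, (u - d j).valMinAbs.natAbs = τ
    · obtain ⟨u, hu⟩ := h
      refine ⟨{u, 2 * d j - u}, card_le_two, fun v hv => ?_⟩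
      rcases ZMod.natAbs_valMinAbs_eq_natAbs_valMinAbs.1 ((congrArg Fin.val hv).trans hu.symm)
        with a | a
      · exact mem_insert.2 (Or.inl (by linear_combination a))
      · exact mem_insert.2 (Or.inr (mem_singleton.2 (by linear_combination a)))
    · exact ⟨∅, by simp, fun u hu => absurd ⟨u, congrArg Fin.val hu⟩ h⟩

end Pool.Agent.Lib.MP_270b52_co.Kh
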