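import Pool.Agent.Lib.MP_270b52_co.Kh.B
import Pool.Agent.Lib.MP_270b52_co.Greedy

/-! The sparse family of pairs of blown up edges, and the triangle of copies. -/

set_option autoImplicit false

namespace Pool.Agent.Lib.MP_270b52_co.Kh

open Finset

theorem sample' {Ω κ : Type} [DecidableEq Ω] (D : Finset Ω) (hD : D.Nonempty) (W : Finset κ)
    (good : κ → Finset Ω) (p : ℝ) (hp : 0 < p) (E : ℕ) (hW : W.card ≤ 2 ^ E)
    (hs : ∀ w, good w ⊆ D) (h : ∀ w ∈ W, p * D.card ≤ (good w).card) :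
    ∃ G ⊆ D, (G.card : ℝ) ≤ E / p + 2 ∧ ∀ w ∈ W, ∃ ω ∈ G, ω ∈ good w := by
  have : Nonempty D := hD.to_subtype
  obtain ⟨G, h1, h2⟩ := sample (Ω := D) W (fun w => (good w).subtype (· ∈ D)) p hp E hW
    fun w hw => by
      rw [card_subtype, filter_true_of_mem fun x hx => hs w hx, Fintype.card_coe]
      exact h w hw
  refine ⟨G.map (Function.Embedding.subtype _), fun x hx => ?_, by rwa [card_map], fun w hw => ?_⟩
  · obtain ⟨y, -, rfl⟩ := mem_map.1 hx
    exact y.2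
  · obtain ⟨ω, a1, a2⟩ := h2 w hw
    exact ⟨ω, mem_map_of_mem _ a1, mem_subtype.1 a2⟩

variable {A A' X : Type} [Fintype A] [DecidableEq A] [Fintype A'] [DecidableEq A'] [Fintype X]
  [DecidableEq X] [Nonempty X]

theorem side (F : Finset (Finset A)) (S0 : Finset A') (n : ℕ) (hA : Fintype.card A ≤ n)
    (hA' : Fintype.card A' ≤ n) [Nonempty A] :
    ∃ G : Finset ((Finset A × (A → X)) × (Finset A' × (A' → X))),
      G.card ≤ n * Fintype.card X * (252 * n + 9) * F.card ∧ (∀ g ∈ G, g.1.1 ∈ F ∧ g.2.1 = S0) ∧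
      ∀ (Y U B : Finset (A × X)) (Y' : Finset (A' × X)), U.Nonempty →
        12 * U.card ≤ Fintype.card X → B.card + Y'.card ≤ 6 * U.card →
        (∀ l ∈ U, l ∉ Y ∧ ∃ S ∈ F, ∀ P ∈ S, P ≠ l.1 → ∀ x, (P, x) ∈ Y → (P, x) ∈ B) →
        ∃ g ∈ G, Av Y g.1 ∧ Av Y' g.2 := by
  obtain ⟨φ, hφ⟩ := expand (Λ := A × X) (B := A ⊕ A') (X := X) (2 * n)
    (by rw [Fintype.card_prod]; exact Nat.mul_le_mul_right _ (by omega))
    (by rw [Fintype.card_sum]; omega)
  refine ⟨(univ ×ˢ F).image fun q : ((A × X) × Fin (126 * (2 * n) + 9)) × Finset A =>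
    ((q.2, Function.update (fun P => φ q.1 (Sum.inl P)) q.1.1.1 q.1.1.2),
      (S0, fun P => φ q.1 (Sum.inr P))), card_image_le.trans ?_, fun g hg => ?_,
    fun Y U B Y' h1 h2 h3 h4 => ?_⟩
  · rw [card_product, card_univ, Fintype.card_prod, Fintype.card_prod, Fintype.card_fin,
      show 126 * (2 * n) + 9 = 252 * n + 9 by ring]
    gcongr
  · obtain ⟨q, hq, rfl⟩ := mem_image.1 hg
    exact ⟨(mem_product.1 hq).2, rfl⟩
  obtain ⟨l, hl, c, hc⟩ := hφ U h1 h2 (B.image (fun q => (Sum.inl q.1, q.2)) ∪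
    Y'.image fun q => (Sum.inr q.1, q.2))
    ((card_union_le _ _).trans ((add_le_add card_image_le card_image_le).trans h3))
  obtain ⟨a1, S, a2, a3⟩ := h4 l hl
  refine ⟨_, mem_image_of_mem _ (mem_product.2 ⟨mem_univ (l, c), a2⟩ : ((l, c), S) ∈ _),
    fun P hP hm => ?_, fun P _ hm => hc (Sum.inr P) (mem_union_right _ (mem_image_of_mem _ hm))⟩
  by_cases e : P = l.1
  · subst e
    simp only [Function.update_self] at hm
    exact a1 hm
  · simp only [Function.update_of_ne e] at hm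
    exact hc (Sum.inl P) (mem_union_left _ (mem_image_of_mem _ (a3 P hP e _ hm)))

theorem core {F : Finset (Finset A)} {F' : Finset (Finset A')} {k n : ℕ} (h : Top F k n)
    (h' : Top F' k n) :
    ∃ G : Finset ((Finset A × (A → X)) × (Finset A' × (A' → X))),
      (G.card : ℝ) ≤ 2 * n * Fintype.card X * ((144 * n ^ 2 * k) ^ 2 * F.card * F'.card) /
        Real.exp (k / n * (2 * k / 3 - 5)) + 2 +
        n * Fintype.card X * (252 * n + 9) * (F.card + F'.card) ∧
      (∀ g ∈ G, g.1.1 ∈ F ∧ g.2.1 ∈ F') ∧ ∀ (Y : Finset (A × X)) (Y' : Finset (A' × X)),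
        5 * Y.card + Y'.card < 5 * (k * Fintype.card X) →
        Y.card + 5 * Y'.card < 5 * (k * Fintype.card X) →
        3 * (Y.card + Y'.card) ≤ 4 * (k * Fintype.card X) + 3 * Fintype.card X →
        ∃ g ∈ G, Av Y g.1 ∧ Av Y' g.2 := by
  classical
  have k1 := h.pos
  have : Nonempty A := Fintype.card_pos_iff.1 (by have := h.two; omega)
  have : Nonempty A' := Fintype.card_pos_iff.1 (by have := h'.two; omega)
  obtain ⟨S, hS, -⟩ := h.tau ∅ k1
  obtain ⟨S', hS', -⟩ := h'.tau ∅ k1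
  have n0 : (0 : ℝ) < n := by exact_mod_cast (by have := h.le; have := h.two; omega)
  have k0 : (0 : ℝ) < k := by exact_mod_cast k1
  have q0 : (0 : ℝ) < Fintype.card X := by exact_mod_cast Fintype.card_pos
  have f0 : (0 : ℝ) < F.card := by exact_mod_cast card_pos.2 ⟨S, hS⟩
  have f0' : (0 : ℝ) < F'.card := by exact_mod_cast card_pos.2 ⟨S', hS'⟩
  obtain ⟨G1, a1, a2, a3⟩ := side (X := X) F S' n h.le h'.le
  obtain ⟨G2, b1, b2, b3⟩ := side (X := X) F' S n h'.le h.le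
  set p := Real.exp (k / n * (2 * k / 3 - 5)) / ((144 * n ^ 2 * k) ^ 2 * F.card * F'.card) with hp
  set D := (F ×ˢ (univ : Finset (A → X))) ×ˢ (F' ×ˢ (univ : Finset (A' → X))) with hD
  set good := fun w : Finset (A × X) × Finset (A' × X) =>
    ((F ×ˢ univ).filter (Av w.1)) ×ˢ ((F' ×ˢ univ).filter (Av w.2)) with hg
  obtain ⟨G0, c1, c2, c3⟩ := sample' D (by simp [hD]; exact ⟨⟨S, hS⟩, ⟨S', hS'⟩⟩)
    (univ.filter fun w => p * D.card ≤ (good w).card) good p (by positivity)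
    (2 * n * Fintype.card X) ((card_le_univ _).trans (by
      rw [Fintype.card_prod, Fintype.card_finset, Fintype.card_finset, ← pow_add,
        Fintype.card_prod, Fintype.card_prod, ← add_mul]
      exact Nat.pow_le_pow_right two_pos (Nat.mul_le_mul_right _ (by
        have := h.le; have := h'.le; omega))))
    (fun w => product_subset_product (filter_subset _ _) (filter_subset _ _))
    fun w hw => (mem_filter.1 hw).2
  refine ⟨G0 ∪ (G1 ∪ G2.image Prod.swap), ?_, fun g hg => ?_, fun Y Y' e1 e2 e3 => ?_⟩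
  · have d1 : (G0 ∪ (G1 ∪ G2.image Prod.swap)).card ≤ G0.card + (G1.card + G2.card) :=
      (card_union_le _ _).trans (add_le_add le_rfl ((card_union_le _ _).trans
        (add_le_add le_rfl card_image_le)))
    have d2 : ((G0 ∪ (G1 ∪ G2.image Prod.swap)).card : ℝ) ≤ G0.card +
        (n * Fintype.card X * (252 * n + 9) * F.card +
          n * Fintype.card X * (252 * n + 9) * F'.card) := by
      exact_mod_cast d1.trans (add_le_add le_rfl (add_le_add a1 b1))
    rw [hp, div_div_eq_mul_div] at c2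
    push_cast at c2
    linarith
  · rcases mem_union.1 hg with c | c
    · have := c1 c
      simp only [hD, mem_product, mem_univ, and_true] at this
      exact this
    rcases mem_union.1 c with c | c
    · exact ⟨(a2 g c).1, (a2 g c).2 ▸ hS'⟩
    · obtain ⟨g', d, rfl⟩ := mem_image.1 c
      exact ⟨(b2 g' d).2 ▸ hS, (b2 g' d).1⟩
  rcases h.surv Y (by omega) with ⟨U, B, u1, u2, u3, u4, u5⟩ | s1
  · obtain ⟨g, g1, g2⟩ := a3 Y U B Y' u1 u2 (by omega) u5
    exact ⟨g, mem_union_right _ (mem_union_left _ g1), g2⟩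
  rcases h'.surv Y' (by omega) with ⟨U, B, u1, u2, u3, u4, u5⟩ | s2
  · obtain ⟨g, g1, g2⟩ := b3 Y' U B Y u1 u2 (by omega) u5
    exact ⟨g.swap, mem_union_right _ (mem_union_right _ (mem_image_of_mem _ g1)), g2.2, g2.1⟩
  obtain ⟨g, g1, g2⟩ := c3 (Y, Y') (mem_filter.2 ⟨mem_univ _, by
    simp only [hg, hD, card_product, card_univ]
    push_cast
    refine le_trans ?_ (mul_le_mul s1 s2 (by positivity) (by positivity))
    have d1 : (3 * (Y.card + Y'.card) : ℝ) ≤ 4 * (k * Fintype.card X) + 3 * Fintype.card X := by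
      exact_mod_cast e3
    have d2 : (Y.card : ℝ) / Fintype.card X + Y'.card / Fintype.card X ≤ 4 * k / 3 + 1 := by
      rw [← add_div, div_le_iff₀ q0]; linarith
    have d3 : Real.exp (k / n * (2 * k / 3 - 5)) ≤
        Real.exp (k / n * (k - Y.card / Fintype.card X - 2)) *
          Real.exp (k / n * (k - Y'.card / Fintype.card X - 2)) := by
      rw [← Real.exp_add, ← mul_add]
      exact Real.exp_le_exp.2 (mul_le_mul_of_nonneg_left (by linarith) (by positivity))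
    calc _ = Real.exp (k / n * (2 * k / 3 - 5)) * ((Fintype.card (A → X) : ℝ) *
          Fintype.card (A' → X) / (144 * n ^ 2 * k) ^ 2) := by rw [hp]; field_simp
      _ ≤ _ := mul_le_mul_of_nonneg_right d3 (by positivity)
      _ = _ := by ring⟩)
  simp only [hg, mem_product, mem_filter] at g2
  exact ⟨g, mem_union_left _ g1, g2.1.2, g2.2.2⟩

theorem tri {W : Type} [Fintype W] [DecidableEq W] {r s : ℕ} (hr : 3 * Fintype.card W ≤ r)
    (D : Finset (Option Bool × Finset W × Finset W))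
    (hs : ∀ d ∈ D, d.2.1.card + d.2.2.card ≤ s)
    (hLL : ∀ d ∈ D, ∀ d' ∈ D, d.1 = d'.1 → ∃ w, w ∈ d.2.1 ∧ w ∈ d'.2.1)
    (hRR : ∀ d ∈ D, ∀ d' ∈ D, d.1 ≠ d'.1 → ∃ w, w ∈ d.2.2 ∧ w ∈ d'.2.2)
    (hLR : ∀ d ∈ D, ∀ d' ∈ D, ∃ w, w ∈ d.2.1 ∧ w ∈ d'.2.2)
    (hT : ∀ T : Fin 3 → Finset W, ∑ i, (T i).card < s →
      ∃ i, ∃ d ∈ D, Disjoint d.2.1 (T i) ∧ Disjoint d.2.2 (T (i + 1))) :
    ∃ H, Fam r s H ∧ H.card ≤ 3 * D.card := by
  set G := (univ ×ˢ D).image fun q : Fin 3 × Option Bool × Finset W × Finset W =>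
    ({q.1} ×ˢ q.2.2.1 ∪ {q.1 + 1} ×ˢ q.2.2.2 : Finset (Fin 3 × W)) with hG
  have h2 : ∀ e ∈ G, ∀ f ∈ G, ¬Disjoint e f := fun e he f hf => by
    obtain ⟨⟨i, d⟩, hd, rfl⟩ := mem_image.1 he
    obtain ⟨⟨j, d'⟩, hd', rfl⟩ := mem_image.1 hf
    have a := (mem_product.1 hd).2
    have a' := (mem_product.1 hd').2
    rw [not_disjoint_iff]
    rcases (by decide : ∀ i j : Fin 3, j = i ∨ j = i + 1 ∨ i = j + 1) i j with rfl | rfl | rfl
    · by_cases c : d.1 = d'.1
      · obtain ⟨w, w1, w2⟩ := hLL d a d' a' c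
        exact ⟨(j, w), by simp [w1], by simp [w2]⟩
      · obtain ⟨w, w1, w2⟩ := hRR d a d' a' c
        exact ⟨(j + 1, w), by simp [w1], by simp [w2]⟩
    · obtain ⟨w, w1, w2⟩ := hLR d' a' d a
      exact ⟨(i + 1, w), by simp [w2], by simp [w1]⟩
    · obtain ⟨w, w1, w2⟩ := hLR d a d' a'
      exact ⟨(j + 1, w), by simp [w1], by simp [w2]⟩
  have h3 : ∀ C : Finset (Fin 3 × W), C.card < s → ∃ e ∈ G, Disjoint e C := fun C hC => by
    obtain ⟨i, d, a1, a2, a3⟩ := hT (fun i => univ.filter fun w => (i, w) ∈ C)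
      (lt_of_eq_of_lt (sum_fb C) hC)
    refine ⟨_, mem_image_of_mem _ (mem_product.2 ⟨mem_univ i, a1⟩ : (i, d) ∈ _),
      disjoint_left.2 fun v hv hc => ?_⟩
    obtain ⟨j, w⟩ := v
    simp only [mem_union, mem_product, mem_singleton] at hv
    rcases hv with ⟨rfl, b⟩ | ⟨rfl, b⟩
    · exact disjoint_left.1 a2 b (by simpa using hc)
    · exact disjoint_left.1 a3 b (by simpa using hc)
  have h1 : ∀ e ∈ G, e.card = s := fun e he => by
    refine le_antisymm ?_ (not_lt.1 fun c => ?_)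
    · obtain ⟨q, hq, rfl⟩ := mem_image.1 he
      refine (card_union_le _ _).trans ?_
      simpa using hs _ (mem_product.1 hq).2
    · obtain ⟨f, hf, hd⟩ := h3 e c
      exact h2 f hf e he hd
  obtain ⟨H, h4, h5⟩ := fam_of_emb (r := r) (s := s) (by simpa using hr) G h1 h2 h3
  exact ⟨H, h4, h5.trans (card_image_le.trans (by simp))⟩

end Pool.Agent.Lib.MP_270b52_co.Kh
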