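import Pool.Agent.Lib.MP_270b52_co.Kh.C
import Pool.Agent.Lib.MP_270b52_co.Kh.D

/-! The construction: three copies of the blown up system with padding. -/

set_option autoImplicit false

namespace Pool.Agent.Lib.MP_270b52_co.Kh

open Finset Sum

theorem cov_le {ι W : Type} [Fintype ι] [DecidableEq ι] [DecidableEq W] (b : ι → Finset W)
    (T : Finset W) (m : ℕ) (h : ∀ w, ∃ Z : Finset ι, Z.card ≤ m ∧ ∀ i, w ∈ b i → i ∈ Z) :
    (univ.filter fun i => ¬Disjoint (b i) T).card ≤ m * T.card := by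
  choose Z h1 h2 using h
  refine (card_le_card (t := T.biUnion Z) fun i hi => ?_).trans
    ((card_biUnion_le_card_mul _ _ _ fun w _ => h1 w).trans (mul_comm _ _).le)
  obtain ⟨w, a1, a2⟩ := not_disjoint_iff.1 (mem_filter.1 hi).2
  exact mem_biUnion.2 ⟨w, a2, h2 w i a1⟩

theorem arith (N Q ρ : ℕ) (y a u : Fin 3 → ℕ) (h1 : ∑ i, y i < 2 * N + (ρ + 1))
    (h2 : ∀ i, 2 * a i + u i ≤ 2 * y i) (h3 : 100 * (ρ + 1) ≤ Q) (h4 : Q ≤ N) :
    ∃ i, (5 * a i + y (i + 1) < 5 * N ∧ a i + 5 * y (i + 1) < 5 * N ∧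
      3 * (a i + y (i + 1)) ≤ 4 * N + 3 * Q) ∨
      (u i < 2 * ρ + 1 ∧ y (i + 1) + 6 * u i ≤ 6 * (2 * ρ + 1)) := by
  by_contra hn
  rw [Fin.sum_univ_three] at h1
  have a0 := fun h => hn ⟨0, h⟩
  have a1 := fun h => hn ⟨1, h⟩
  have a2 := fun h => hn ⟨2, h⟩
  rw [show (0 : Fin 3) + 1 = 1 from rfl] at a0
  rw [show (1 : Fin 3) + 1 = 2 from rfl] at a1
  rw [show (2 : Fin 3) + 1 = 0 from rfl] at a2
  have b0 := h2 0
  have b1 := h2 1
  have b2 := h2 2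
  simp only [imp_false] at a0 a1 a2
  omega

theorem top_ext {n0 k : ℕ} {F : Finset (Finset (Fin n0))} (hF : Fam n0 k F) (hk : 1 ≤ k)
    (h2 : 2 * k ≤ n0) : Top F k (n0 + k) ∧
      Top ((F ×ˢ univ).image fun q : Finset (Fin n0) × Fin k => q.1.disjSum {q.2}) k (n0 + k) := by
  refine ⟨⟨fun S hS => (hF.1 S hS).ge, hF.2.2, by simp, by simpa using h2, hk⟩,
    fun S hS => ?_, fun C hC => ?_, by simp, by simp; omega, hk⟩
  · obtain ⟨q, hq, rfl⟩ := mem_image.1 hS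
    rw [card_disjSum, hF.1 _ (mem_product.1 hq).1]; omega
  · have a := card_toLeft_add_card_toRight (u := C)
    obtain ⟨S, s1, s2⟩ := hF.2.2 C.toLeft (by omega)
    obtain ⟨z, -, hz⟩ := exists_mem_notMem_of_card_lt_card (s := C.toRight) (t := univ)
      (by rw [card_univ, Fintype.card_fin]; omega)
    refine ⟨_, mem_image_of_mem _ (mem_product.2 ⟨s1, mem_univ z⟩ : (S, z) ∈ _),
      disjoint_left.2 fun v hv hc => ?_⟩
    rcases v with P | z'
    · exact disjoint_left.1 s2 (inl_mem_disjSum.1 hv) (mem_toLeft.2 hc)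
    · obtain rfl : z' = z := mem_singleton.1 (inr_mem_disjSum.1 hv)
      exact hz (mem_toRight.2 hc)

theorem num (n k Q f f' E G H : ℝ) (hE : 0 < E) (b2 : f' ≤ n * f) (b3 : 1 ≤ f) (b4 : k ≤ n)
    (b5 : 1 ≤ n) (b6 : 1 ≤ Q) (b7 : 0 ≤ k) (b8 : 0 ≤ f')
    (b1 : H ≤ 3 * (2 * G + Q * (126 * n + 9)))
    (g1 : G ≤ 2 * n * Q * ((144 * n ^ 2 * k) ^ 2 * f * f') / E + 2 +
      n * Q * (252 * n + 9) * (f + f')) : H ≤ Q * n ^ 8 * (250000 * f ^ 2 / E + 4000 * f) := by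
  have c1 : 2 * (n : ℝ) * Q * ((144 * n ^ 2 * k) ^ 2 * f * f') / E ≤
      Q * n ^ 8 * (41472 * f ^ 2 / E) :=
    calc _ ≤ 2 * (n : ℝ) * Q * ((144 * n ^ 2 * n) ^ 2 * f * (n * f)) / E := by gcongr
      _ = _ := by ring
  have c0 : ∀ j ≤ 8, (n : ℝ) ^ j ≤ n ^ 8 := fun j hj => pow_le_pow_right₀ b5 hj
  have c2 : (n : ℝ) * Q * (252 * n + 9) * (f + f') ≤ Q * n ^ 8 * (522 * f) :=
    calc _ ≤ (n : ℝ) * Q * (261 * n) * (n * f + n * f) := by
          gcongr <;> nlinarith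
      _ = Q * n ^ 3 * (522 * f) := by ring
      _ ≤ _ := by gcongr; norm_num
  have c3 : (Q : ℝ) * (126 * n + 9) ≤ Q * n ^ 8 * (135 * f) :=
    calc _ ≤ Q * (n ^ 1 * (135 * 1) : ℝ) := by gcongr; linarith
      _ ≤ Q * (n ^ 8 * (135 * f)) := by gcongr; norm_num
      _ = _ := by ring
  have c4 : (1 : ℝ) ≤ Q * n ^ 8 * f :=
    one_le_mul_of_one_le_of_one_le (one_le_mul_of_one_le_of_one_le b6 (one_le_pow₀ b5)) b3
  have c5 : 0 ≤ (Q : ℝ) * n ^ 8 * (f ^ 2 / E) := by positivity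
  have c6 : (Q : ℝ) * n ^ 8 * (41472 * f ^ 2 / E) =
      41472 * (Q * n ^ 8 * (f ^ 2 / E)) := by ring
  have c7 : (Q : ℝ) * n ^ 8 * (250000 * f ^ 2 / E + 4000 * f) =
      250000 * (Q * n ^ 8 * (f ^ 2 / E)) + 4000 * (Q * n ^ 8 * f) := by ring
  rw [c7]
  linarith

theorem build {n0 k ρ r : ℕ} {F : Finset (Finset (Fin n0))} (hF : Fam n0 k F) (hk : 1 ≤ k)
    (h2 : 2 * k ≤ n0) {X Ω : Type} [Fintype X] [DecidableEq X] [Fintype Ω] [DecidableEq Ω]
    (d : Des X Ω) {Q : ℕ} (hQ : Fintype.card X = Q) (hΩ : Fintype.card Ω ≤ Q ^ 2)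
    (hρ : 100 * (ρ + 1) ≤ Q) (hr : 3 * (n0 + k) * Q ^ 2 ≤ r) :
    ∃ H, Fam r (2 * (k * Q) + (ρ + 1)) H ∧ (H.card : ℝ) ≤ Q * ((n0 + k : ℕ) : ℝ) ^ 8 *
      (250000 * F.card ^ 2 / Real.exp (k / (n0 + k : ℕ) * (2 * k / 3 - 5)) + 4000 * F.card) := by
  classical
  have : Nonempty X := Fintype.card_pos_iff.1 (by omega)
  have : Nonempty (Fin n0) := ⟨⟨0, by omega⟩⟩
  have qN : Q ≤ k * Q := Nat.le_mul_of_pos_left _ hk
  obtain ⟨t1, t2⟩ := top_ext hF hk h2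
  set F' := (F ×ˢ univ).image fun q : Finset (Fin n0) × Fin k => q.1.disjSum {q.2} with hF'
  have f' : ∀ S' ∈ F', ∃ S ∈ F, ∃ z, S' = S.disjSum {z} := fun S' h => by
    obtain ⟨q, hq, rfl⟩ := mem_image.1 h
    exact ⟨q.1, (mem_product.1 hq).1, q.2, rfl⟩
  obtain ⟨G, g1, g2, g3⟩ := core (X := X) t1 t2
  obtain ⟨S0, hS0, -⟩ := t2.tau ∅ hk
  obtain ⟨t, p1, p2⟩ := exists_pad (Fin k × X) ρ (by simp [hQ]; omega)
  obtain ⟨φ, hφ⟩ := expand (Λ := ZMod (2 * ρ + 1)) (B := Fin n0 ⊕ Fin k) (X := X) (n0 + k)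
    (by rw [ZMod.card, hQ]; exact le_trans (by omega) (Nat.le_mul_of_pos_left _ (by omega)))
    (by simp)
  rw [hQ] at g1 g3 hφ
  let lb : Bool × Fin n0 × X → Finset ((Fin n0 × Ω) ⊕ ((Fin k × X) × Fin (ρ + 1))) :=
    fun q => (d.cl q.1 q.2.2).image fun p => inl (q.2.1, p)
  let ub : ZMod (2 * ρ + 1) → Finset ((Fin n0 × Ω) ⊕ ((Fin k × X) × Fin (ρ + 1))) :=
    fun u => univ.image fun j => inr (j, t j u)
  let rb : Option Bool → (Fin n0 ⊕ Fin k) × X →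
      Finset ((Fin n0 × Ω) ⊕ ((Fin k × X) × Fin (ρ + 1))) := fun c q =>
    q.1.elim (fun P => (d.od c q.2).image fun p => inl (P, p))
      fun z => univ.image fun τ => inr ((z, q.2), τ)
  let Lp := fun (σ : Bool) (e : Finset (Fin n0) × (Fin n0 → X)) =>
    e.1.biUnion fun P => lb (σ, P, e.2 P)
  let Rp := fun (c : Option Bool) (e : Finset (Fin n0 ⊕ Fin k) × (Fin n0 ⊕ Fin k → X)) =>
    e.1.biUnion fun P => rb c (P, e.2 P)
  have mL : ∀ σ e P p, P ∈ e.1 → p ∈ d.cl σ (e.2 P) → inl (P, p) ∈ Lp σ e :=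
    fun σ e P p a b => mem_biUnion.2 ⟨P, a, mem_image_of_mem _ b⟩
  have mR : ∀ c e P p, inl P ∈ e.1 → p ∈ d.od c (e.2 (inl P)) → inl (P, p) ∈ Rp c e :=
    fun c e P p a b => mem_biUnion.2 ⟨inl P, a, mem_image_of_mem _ b⟩
  have mR' : ∀ c e z τ, inr z ∈ e.1 → inr ((z, e.2 (inr z)), τ) ∈ Rp c e :=
    fun c e z τ a => mem_biUnion.2 ⟨inr z, a, mem_image_of_mem _ (mem_univ τ)⟩
  have mU : ∀ u j, inr (j, t j u) ∈ ub u := fun u j => mem_image_of_mem _ (mem_univ j)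
  have dR : ∀ c e T, Av (univ.filter fun q => ¬Disjoint (rb c q) T) e → Disjoint (Rp c e) T :=
    fun c e T h => (disjoint_biUnion_left _ _ _).2 fun P hP => by simpa using h P hP
  have cR : ∀ c T, (univ.filter fun q => ¬Disjoint (rb c q) T).card ≤ T.card := fun c T => by
    refine (cov_le _ T 1 fun w => ?_).trans (one_mul _).le
    rcases w with ⟨P, p⟩ | ⟨⟨z, x⟩, τ⟩
    · obtain ⟨w, hw⟩ := d.od_one c p
      refine ⟨{(inl P, w)}, by simp, ?_⟩
      rintro ⟨R | z, x⟩ h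
      · obtain ⟨p', a, b⟩ := mem_image.1 h
        cases b
        simp [hw x a]
      · simp [rb] at h
    · refine ⟨{(inr z, x)}, by simp, ?_⟩
      rintro ⟨R | z', x'⟩ h
      · simp [rb] at h
      · obtain ⟨p', -, b⟩ := mem_image.1 h
        cases b
        simp
  have cL : ∀ T, (univ.filter fun q => ¬Disjoint (Sum.elim lb ub q) T).card ≤ 2 * T.card :=
    fun T => by
    refine cov_le _ T 2 fun w => ?_
    rcases w with ⟨P, p⟩ | ⟨j, τ⟩
    · obtain ⟨Z, z1, z2⟩ := d.cl_two p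
      refine ⟨Z.image fun q => inl (q.1, P, q.2), card_image_le.trans z1, ?_⟩
      rintro (⟨σ, R, x⟩ | u) h
      · obtain ⟨p', a, b⟩ := mem_image.1 h
        cases b
        exact mem_image.2 ⟨(σ, x), z2 σ x a, rfl⟩
      · simp [ub] at h
    · obtain ⟨Z, z1, z2⟩ := p2 j τ
      refine ⟨Z.image inr, card_image_le.trans z1, ?_⟩
      rintro (⟨σ, R, x⟩ | u) h
      · simp [lb] at h
      · obtain ⟨p', -, b⟩ := mem_image.1 h
        cases b
        exact mem_image_of_mem _ (z2 u rfl)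
  set D := ((univ ×ˢ G).image fun q : Bool × _ => (some q.1, Lp q.1 q.2.1, Rp (some q.1) q.2.2)) ∪
    univ.image fun q => ((none : Option Bool), ub q.1, Rp none (S0, φ q)) with hD
  have mD : ∀ x ∈ D, (∃ S ∈ F, ∃ z f, x.2.2 = Rp x.1 (S.disjSum {z}, f)) ∧
      ((∃ σ, ∃ S ∈ F, ∃ f, x.1 = some σ ∧ x.2.1 = Lp σ (S, f)) ∨
        ∃ u, x.1 = none ∧ x.2.1 = ub u) := fun x hx => by
    rcases mem_union.1 hx with c | c
    · obtain ⟨q, hq, rfl⟩ := mem_image.1 c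
      obtain ⟨a1, a2⟩ := g2 _ (mem_product.1 hq).2
      obtain ⟨S, s1, z, s2⟩ := f' _ a2
      exact ⟨⟨S, s1, z, q.2.2.2, by rw [← s2]⟩, Or.inl ⟨q.1, _, a1, q.2.1.2, rfl, rfl⟩⟩
    · obtain ⟨q, -, rfl⟩ := mem_image.1 c
      obtain ⟨S, s1, z, s2⟩ := f' _ hS0
      exact ⟨⟨S, s1, z, φ q, by rw [← s2]⟩, Or.inr ⟨q.1, rfl, rfl⟩⟩
  have mt : ∀ S ∈ F, ∀ S' ∈ F, ∃ P, P ∈ S ∧ P ∈ S' := fun S a S' b => by
    obtain ⟨P, hP⟩ := hF.2.1 S a S' b
    exact ⟨P, mem_inter.1 hP⟩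
  obtain ⟨H, h1, h3⟩ := tri (r := r) (s := 2 * (k * Q) + (ρ + 1)) (le_trans (by
      simp only [Fintype.card_sum, Fintype.card_prod, Fintype.card_fin, hQ]
      have a1 := Nat.mul_le_mul_left n0 hΩ
      have a2 : k * Q * (ρ + 1) ≤ k * Q * Q := Nat.mul_le_mul_left _ (by omega)
      nlinarith) hr) D
    (fun x hx => by
      obtain ⟨⟨S, s1, z, f, e1⟩, e2⟩ := mD x hx
      have a1 : x.2.2.card ≤ k * Q + (ρ + 1) := by
        rw [e1]
        refine card_biUnion_le.trans ?_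
        rw [sum_disjSum, sum_singleton]
        exact add_le_add ((sum_le_card_nsmul _ _ Q fun P _ =>
          card_image_le.trans (hQ ▸ d.od_card _ _)).trans (by rw [hF.1 S s1, smul_eq_mul]))
          (card_image_le.trans (by simp))
      have a2 : x.2.1.card ≤ k * Q := by
        rcases e2 with ⟨σ, S, s1, f, -, e⟩ | ⟨u, -, e⟩ <;> rw [e]
        · exact (card_biUnion_le_card_mul _ _ Q fun P _ =>
            card_image_le.trans (hQ ▸ d.cl_card _ _)).trans (by rw [hF.1 S s1])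
        · exact card_image_le.trans (by simp [hQ])
      omega)
    (fun x hx x' hx' e => by
      rcases (mD x hx).2 with ⟨σ, S, s1, f, a1, a2⟩ | ⟨u, a1, a2⟩ <;>
        rcases (mD x' hx').2 with ⟨σ', S', s2, f', b1, b2⟩ | ⟨u', b1, b2⟩ <;>
        rw [a1, b1] at e <;> rw [a2, b2] <;> cases e
      · obtain ⟨P, c1, c2⟩ := mt S s1 S' s2
        obtain ⟨p, c3, c4⟩ := d.cl_cl σ (f P) (f' P)
        exact ⟨_, mL _ _ P p c1 c3, mL _ _ P p c2 c4⟩
      · obtain ⟨j, c⟩ := p1 u u'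
        exact ⟨_, mU u j, c ▸ mU u' j⟩)
    (fun x hx x' hx' e => by
      obtain ⟨S, s1, z, f, a⟩ := (mD x hx).1
      obtain ⟨S', s2, z', f', b⟩ := (mD x' hx').1
      obtain ⟨P, c1, c2⟩ := mt S s1 S' s2
      obtain ⟨p, c3, c4⟩ := d.od_od _ _ (f (inl P)) (f' (inl P)) e
      rw [a, b]
      exact ⟨_, mR _ _ P p (inl_mem_disjSum.2 c1) c3, mR _ _ P p (inl_mem_disjSum.2 c2) c4⟩)
    (fun x hx x' hx' => by
      obtain ⟨S', s2, z', f', b⟩ := (mD x' hx').1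
      rcases (mD x hx).2 with ⟨σ, S, s1, f, -, a⟩ | ⟨u, -, a⟩ <;> rw [a, b]
      · obtain ⟨P, c1, c2⟩ := mt S s1 S' s2
        obtain ⟨p, c3, c4⟩ := d.cl_od σ (f P) x'.1 (f' (inl P))
        exact ⟨_, mL _ _ P p c1 c3, mR _ _ P p (inl_mem_disjSum.2 c2) c4⟩
      · exact ⟨_, mU u (z', f' (inr z')), mR' _ _ z' _ (inr_mem_disjSum.2 (mem_singleton_self _))⟩)
    (fun T hT => by
      set Z := fun i => univ.filter fun q => ¬Disjoint (Sum.elim lb ub q) (T i) with hZ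
      have a1 : ∀ i, ∃ σ, 2 * fb (Z i).toLeft σ + (Z i).toRight.card ≤ 2 * (T i).card := fun i => by
        have b1 := card_toLeft_add_card_toRight (u := Z i)
        have b2 : (Z i).card ≤ _ := cL (T i)
        have b3 := sum_fb (Z i).toLeft
        rw [Fintype.sum_bool] at b3
        rcases le_total (fb (Z i).toLeft true) (fb (Z i).toLeft false) with c | c
        exacts [⟨true, by omega⟩, ⟨false, by omega⟩]
      choose σ hσ using a1
      obtain ⟨i, ⟨b1, b2, b3⟩ | ⟨b1, b2⟩⟩ := arith (k * Q) Q ρ (fun i => (T i).card)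
        (fun i => fb (Z i).toLeft (σ i)) (fun i => (Z i).toRight.card) hT hσ hρ qN
      · have c1 := cR (some (σ i)) (T (i + 1))
        simp only [fb] at b1 b2 b3
        obtain ⟨g, c2, c3, c4⟩ := g3 (univ.filter fun q => (σ i, q) ∈ (Z i).toLeft) _
          (lt_of_le_of_lt (add_le_add le_rfl c1) b1) (by omega) (by omega)
        refine ⟨i, _, mem_union_left _ (mem_image_of_mem _ (mem_product.2 ⟨mem_univ (σ i), c2⟩ :
          (σ i, g) ∈ _)), (disjoint_biUnion_left _ _ _).2 fun P hP => ?_, dR _ _ _ c4⟩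
        simpa [hZ] using c3 P hP
      · have c1 := cR none (T (i + 1))
        have c2 := card_compl (Z i).toRight
        rw [ZMod.card] at c2
        obtain ⟨u, c3, c, c4⟩ := hφ (Z i).toRightᶜ (card_pos.1 (by omega)) (by omega) _
          (c1.trans (by omega))
        refine ⟨i, _, mem_union_right _ (mem_image_of_mem _ (mem_univ (u, c))), ?_,
          dR _ _ _ fun P _ => c4 P⟩
        simpa [hZ] using c3)
  refine ⟨H, h1, ?_⟩
  have a1 : D.card ≤ 2 * G.card + Q * (126 * (n0 + k) + 9) :=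
    (card_union_le _ _).trans (add_le_add (card_image_le.trans (by simp))
      (card_image_le.trans (by
        rw [card_univ, Fintype.card_prod, ZMod.card, Fintype.card_fin]
        exact Nat.mul_le_mul_right _ (by omega))))
  have a2 : F'.card ≤ (n0 + k) * F.card := card_image_le.trans (by
    rw [card_product, card_univ, Fintype.card_fin, mul_comm]
    exact Nat.mul_le_mul_right _ (by omega))
  have a3 : 1 ≤ F.card := by
    obtain ⟨S, hS, -⟩ := t1.tau ∅ hk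
    exact card_pos.2 ⟨S, hS⟩
  have a4 : k ≤ n0 + k := by omega
  exact num _ _ _ _ _ _ _ _ (Real.exp_pos _) (by exact_mod_cast a2) (by exact_mod_cast a3)
    (by exact_mod_cast a4) (by exact_mod_cast hk.trans a4) (by exact_mod_cast (by omega : 1 ≤ Q))
    (by positivity) (by positivity) (by exact_mod_cast h3.trans (Nat.mul_le_mul_left _ a1)) g1

end Pool.Agent.Lib.MP_270b52_co.Kh
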