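import Pool.Agent.Lib.MP_270b52_co.Kh.E
import Pool.Agent.Lib.MP_270b52_co.MJoin

/-! Parameters, and the two sided bound. -/

set_option autoImplicit false

namespace Pool.Agent.Lib.MP_270b52_co.Kh

open Finset MD

/-- the counting ratio at level `j` -/
noncomputable def Bj (r s j : ℕ) : ℝ := (r.choose j : ℝ) / ((r - s).choose j : ℝ)

theorem Bj_succ {r s j : ℕ} (h : s + j < r) :
    Bj r s (j + 1) = Bj r s j * (1 + s / (r - s - j : ℝ)) := by
  have h1 : (r.choose (j + 1) : ℝ) * (j + 1) = r.choose j * (r - j) := by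
    rw [← Nat.cast_sub (by omega)]; exact_mod_cast Nat.choose_succ_right_eq r j
  have h2 : ((r - s).choose (j + 1) : ℝ) * (j + 1) = (r - s).choose j * (r - s - j) := by
    rw [← Nat.cast_sub (by omega), ← Nat.cast_sub (by omega)]
    exact_mod_cast Nat.choose_succ_right_eq (r - s) j
  have p1 : (0 : ℝ) < (r - s).choose j := by exact_mod_cast Nat.choose_pos (by omega)
  have p2 : (0 : ℝ) < r - s - j := by
    have : ((s + j : ℕ) : ℝ) < r := by exact_mod_cast h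
    push_cast at this; linarith
  have p3 : (0 : ℝ) < j + 1 := by positivity
  unfold Bj
  rw [eq_div_of_mul_eq p3.ne' h1, eq_div_of_mul_eq p3.ne' h2]
  field_simp
  ring

theorem Bj_nonneg (r s j : ℕ) : 0 ≤ Bj r s j := by unfold Bj; positivity

theorem Bj_up {r s : ℕ} (h : 2 * s < r) (i t : ℕ) (hi : i + t ≤ s) :
    Bj r s (i + t) ≤ Bj r s i * Real.exp (t * (s / (r - 2 * s))) := by
  induction t with
  | zero => simp
  | succ t ih =>
    have a1 : ((2 * s : ℕ) : ℝ) < r := by exact_mod_cast h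
    have a2 : ((i + t : ℕ) : ℝ) ≤ s := by exact_mod_cast (by omega : i + t ≤ s)
    push_cast at a1
    have a3 : (s : ℝ) / (r - s - (i + t : ℕ)) ≤ s / (r - 2 * s) :=
      div_le_div_of_nonneg_left (by positivity) (by linarith) (by linarith)
    have a4 : (0 : ℝ) ≤ s / (r - s - (i + t : ℕ)) := div_nonneg (by positivity) (by linarith)
    rw [← add_assoc, Bj_succ (by omega), Nat.cast_succ, add_mul, one_mul, Real.exp_add, ← mul_assoc]
    exact mul_le_mul (ih (by omega)) (by linarith [Real.add_one_le_exp ((s : ℝ) / (r - 2 * s))])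
      (by linarith) (mul_nonneg (Bj_nonneg _ _ _) (Real.exp_pos _).le)

theorem Bj_low {r s : ℕ} (j : ℕ) (h : s + j ≤ r) : Real.exp (j * (s / r)) ≤ Bj r s j := by
  induction j with
  | zero => simp [Bj]
  | succ j ih =>
    have a1 : ((s + j : ℕ) : ℝ) < r := by exact_mod_cast h
    push_cast at a1
    have j0 : (0 : ℝ) ≤ j := by positivity
    have s0 : (0 : ℝ) ≤ s := by positivity
    have a3 : (s : ℝ) / (r - s) ≤ s / (r - s - j) :=
      div_le_div_of_nonneg_left s0 (by linarith) (by linarith)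
    have a4 : Real.exp (s / r) ≤ 1 + s / (r - s) := by
      refine (Real.exp_bound_div_one_sub_of_interval (div_nonneg s0 (by linarith))
        ((div_lt_one (by linarith)).2 (by linarith))).trans (le_of_eq ?_)
      have : (r : ℝ) ≠ 0 := by linarith
      have : (r : ℝ) - s ≠ 0 := by linarith
      field_simp
      ring
    rw [Bj_succ (by omega), Nat.cast_succ, add_mul, one_mul, Real.exp_add]
    exact mul_le_mul (ih (by omega)) (by linarith) (Real.exp_pos _).le (Bj_nonneg _ _ _)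

theorem fam_low {r s : ℕ} (hr : 2 * s - 1 ≤ r) {H : Finset (Finset (Fin r))} (h : Fam r s H)
    (j : ℕ) (hj : 1 ≤ j) (hjs : j ≤ s) : j * Bj r s (s - j) ≤ H.card := by
  obtain ⟨h1, h2, h3⟩ := h
  have a1 : ∀ C ∈ powersetCard (s - j) (univ : Finset (Fin r)),
      j ≤ (H.filter (fun e => Disjoint e C)).card := by
    intro C hC
    have hc := (mem_powersetCard.1 hC).2
    by_contra hlt
    obtain ⟨D, d1, d2⟩ := pair_cover (j - 1) (H.filter (fun e => Disjoint e C))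
      (fun a ha b hb => h2 a (mem_filter.1 ha).1 b (mem_filter.1 hb).1) (by omega)
    obtain ⟨e, he, hd⟩ := h3 (C ∪ D) ((card_union_le _ _).trans_lt (by omega))
    rw [disjoint_union_right] at hd
    exact d2 e (mem_filter.2 ⟨he, hd.1⟩) hd.2
  have a2 : r.choose (s - j) * j ≤ H.card * (r - s).choose (s - j) := by
    have b1 := card_nsmul_le_sum _ _ _ a1
    rw [card_powersetCard, card_univ, Fintype.card_fin, smul_eq_mul] at b1
    refine b1.trans (le_of_eq ?_)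
    simp only [card_filter]
    rw [sum_comm, ← smul_eq_mul, ← sum_const]
    refine sum_congr rfl fun e he => ?_
    rw [← card_filter]
    have : r - s = eᶜ.card := by rw [card_compl, Fintype.card_fin, h1 e he]
    rw [this, ← card_powersetCard]
    congr 1
    ext T
    simp only [mem_filter, mem_powersetCard, subset_univ, true_and,
      subset_compl_iff_disjoint_left]
    tauto
  unfold Bj
  rw [← mul_div_assoc, div_le_iff₀ (by exact_mod_cast Nat.choose_pos (by omega)), mul_comm]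
  exact_mod_cast a2

theorem exp_three : Real.exp 3 ≤ 21 := by
  have : Real.exp 3 = Real.exp 1 ^ 3 := by rw [← Real.exp_nat_mul]; norm_num
  rw [this]
  exact (pow_le_pow_left₀ (Real.exp_pos _).le Real.exp_one_lt_d9.le 3).trans (by norm_num)

theorem lower {r s : ℕ} (hs : 2 ≤ s) (hr : 2 * s - 1 ≤ r) {H : Finset (Finset (Fin r))}
    (h : Fam r s H) : s * B r s ≤ 21 * (1 + (s : ℝ) ^ 2 / r) * H.card := by
  have r0 : (0 : ℝ) < r := by exact_mod_cast (by omega : 0 < r)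
  have s0 : (0 : ℝ) < s := by exact_mod_cast (by omega : 0 < s)
  have l0 : (0 : ℝ) ≤ (s : ℝ) ^ 2 / r := by positivity
  rcases le_or_gt r (3 * s) with c | c
  · have a1 : B r s ≤ H.card := by
      have := fam_low hr h 1 le_rfl (by omega)
      rwa [Nat.cast_one, one_mul] at this
    have a2 : (s : ℝ) ≤ 3 * ((s : ℝ) ^ 2 / r) := by
      have : (r : ℝ) ≤ 3 * s := by exact_mod_cast c
      rw [← mul_div_assoc, le_div_iff₀ r0]; nlinarith
    exact mul_le_mul (by linarith) a1 (Bj_nonneg r s _) (by positivity)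
  obtain ⟨t, ht⟩ : ∃ t, t = min (s - 1) (r / s) := ⟨_, rfl⟩
  have a1 := fam_low hr h (t + 1) (by omega) (by omega)
  have a2 := Bj_up (r := r) (s := s) (by omega) (s - (t + 1)) t (by omega)
  rw [show s - (t + 1) + t = s - 1 by omega] at a2
  have c' : (3 * s : ℝ) < r := by exact_mod_cast c
  have a3 : (t : ℝ) * (s / (r - 2 * s)) ≤ 3 := by
    have : t * s ≤ r := (Nat.mul_le_mul_right _ (by omega)).trans (Nat.div_mul_le_self r s)
    have : (t : ℝ) * s ≤ r := by exact_mod_cast this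
    rw [← mul_div_assoc, div_le_iff₀ (by linarith)]; linarith
  have a4 : B r s ≤ Bj r s (s - (t + 1)) * 21 := a2.trans (mul_le_mul_of_nonneg_left
    ((Real.exp_le_exp.2 a3).trans exp_three) (Bj_nonneg _ _ _))
  have a5 : (s : ℝ) ≤ (1 + (s : ℝ) ^ 2 / r) * (t + 1 : ℕ) := by
    have t0 : (0 : ℝ) ≤ (t + 1 : ℕ) := by positivity
    rcases le_total (s - 1) (r / s) with e | e
    · have : (s : ℝ) = (t + 1 : ℕ) := by congr 1; omega
      nlinarith
    · have b1 : r ≤ (t + 1) * s := by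
        rw [ht, min_eq_right e, add_mul, one_mul]; exact (Nat.lt_div_mul_add (by omega)).le
      have b2 : (r : ℝ) ≤ (t + 1 : ℕ) * s := by exact_mod_cast b1
      have b3 : (s : ℝ) ≤ (s : ℝ) ^ 2 / r * (t + 1 : ℕ) := by
        rw [div_mul_eq_mul_div, le_div_iff₀ r0]; nlinarith
      linarith
  calc _ ≤ (1 + (s : ℝ) ^ 2 / r) * (t + 1 : ℕ) * (Bj r s (s - (t + 1)) * 21) :=
        mul_le_mul a5 a4 (Bj_nonneg r s _) (by positivity)
    _ = 21 * (1 + (s : ℝ) ^ 2 / r) * ((t + 1 : ℕ) * Bj r s (s - (t + 1))) := by ring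
    _ ≤ _ := by gcongr

theorem exists_Q (k s : ℕ) (hk : 1 ≤ k) (hs : 10 ^ 7 * k ^ 3 < s) : ∃ h ρ : ℕ,
    s = 2 * (k * (9 * h ^ 2 + 3 * h + 1)) + (ρ + 1) ∧ 100 * (ρ + 1) ≤ 9 * h ^ 2 + 3 * h + 1 := by
  have ex : ∃ h, s ≤ 2 * (k * (9 * (h + 1) ^ 2 + 3 * (h + 1) + 1)) := ⟨s, by nlinarith⟩
  classical
  obtain ⟨h, h1, h2⟩ : ∃ h, s ≤ 2 * (k * (9 * (h + 1) ^ 2 + 3 * (h + 1) + 1)) ∧
      ∀ g < h, ¬s ≤ 2 * (k * (9 * (g + 1) ^ 2 + 3 * (g + 1) + 1)) :=
    ⟨Nat.find ex, Nat.find_spec ex, fun g hg => Nat.find_min ex hg⟩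
  have a1 : 700 * k ≤ h := by
    by_contra c
    have b1 : h + 1 ≤ 700 * k := by omega
    have b2 : 9 * (h + 1) ^ 2 + 3 * (h + 1) + 1 ≤ 9 * (700 * k) ^ 2 + 3 * (700 * k) + 1 := by gcongr
    have b3 : 9 * (700 * k) ^ 2 + 3 * (700 * k) + 1 ≤ 5000000 * k ^ 2 := by nlinarith
    have b4 := Nat.mul_le_mul_left k (b2.trans b3)
    nlinarith
  obtain ⟨g, rfl⟩ : ∃ g, h = g + 1 := ⟨h - 1, by omega⟩
  have a2 := not_le.1 (h2 g (by omega))
  generalize g + 1 = h at *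
  refine ⟨h, s - 2 * (k * (9 * h ^ 2 + 3 * h + 1)) - 1, by omega, ?_⟩
  have a3 : 2 * (k * (9 * (h + 1) ^ 2 + 3 * (h + 1) + 1)) =
      2 * (k * (9 * h ^ 2 + 3 * h + 1)) + (36 * (k * h) + 24 * k) := by ring
  have a4 : 700 * (k * h) ≤ h ^ 2 := by nlinarith
  have a5 : k ≤ k * h := Nat.le_mul_of_pos_right _ (by omega)
  omega

theorem sparse : ∃ K : ℕ, ∀ r s L : ℕ, 1 ≤ L → s ^ 2 ≤ L * r → 10 ^ 7 * (12 * L ^ 2) ^ 3 < s →
    ∃ H, Fam r s H ∧ (H.card : ℝ) ≤ K * (L : ℝ) ^ K * (s * Real.exp (L + 1)) := by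
  obtain ⟨K, hK⟩ := Kn.final
  refine ⟨254000 * 192 ^ 8 * 12 ^ (2 * K) + (24 + 4 * K), fun r s L hL hr hs => ?_⟩
  have l2 : L ≤ L ^ 2 := by nlinarith
  have l3 : L ^ 2 ≤ L ^ 3 := Nat.pow_le_pow_right hL (by norm_num)
  obtain ⟨h, ρ, e1, e2⟩ := exists_Q (12 * L ^ 2) s (by omega) hs
  obtain ⟨n0, hn⟩ : ∃ n0, n0 + 12 * L ^ 2 = 192 * L ^ 3 := ⟨192 * L ^ 3 - 12 * L ^ 2, by omega⟩
  obtain ⟨⟨F, f1, f2⟩, -⟩ := hK n0 (12 * L ^ 2) (by omega) (by omega)
  obtain ⟨d⟩ := exists_des' h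
  have q1 := ZMod.card (9 * h ^ 2 + 3 * h + 1)
  obtain ⟨H, h1, h2⟩ := build (ρ := ρ) (r := r) f1 (by omega) (by omega) d q1
    (by rw [Fintype.card_prod, q1]; exact (sq _).ge) e2 (by
      rw [hn]
      clear q1 d
      generalize 9 * h ^ 2 + 3 * h + 1 = Q at *
      refine Nat.le_of_mul_le_mul_left (c := L) (le_trans ?_ hr) hL
      calc _ = (2 * (12 * L ^ 2 * Q)) ^ 2 := by ring
        _ ≤ _ := Nat.pow_le_pow_left (by omega) 2)
  rw [← e1] at h1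
  refine ⟨H, h1, h2.trans ?_⟩
  have q2 : ((9 * h ^ 2 + 3 * h + 1 : ℕ) : ℝ) ≤ s := by
    have : 9 * h ^ 2 + 3 * h + 1 ≤ 12 * L ^ 2 * (9 * h ^ 2 + 3 * h + 1) :=
      Nat.le_mul_of_pos_left _ (by omega)
    exact_mod_cast (by omega : 9 * h ^ 2 + 3 * h + 1 ≤ s)
  have L1 : (1 : ℝ) ≤ L := by exact_mod_cast hL
  have a1 := Bj_up (r := n0) (s := 12 * L ^ 2) (by omega) 0 (12 * L ^ 2 - 1) (by omega)
  have n1 : (n0 : ℝ) = 192 * L ^ 3 - 12 * L ^ 2 := by
    have : (n0 : ℝ) + 12 * L ^ 2 = 192 * L ^ 3 := by exact_mod_cast hn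
    linarith
  have a2 : ((12 * L ^ 2 - 1 : ℕ) : ℝ) * ((12 * L ^ 2 : ℕ) / (n0 - 2 * (12 * L ^ 2 : ℕ))) ≤
      3 * L / 4 + 1 / 4 := by
    have b1 : ((12 * L ^ 2 - 1 : ℕ) : ℝ) ≤ 12 * L ^ 2 := by exact_mod_cast Nat.sub_le _ _
    have b2 : (n0 : ℝ) - 2 * (12 * L ^ 2 : ℕ) = 12 * L ^ 2 * (16 * L - 3) := by
      rw [n1]; push_cast; ring
    have b3 : (0 : ℝ) < 16 * L - 3 := by linarith
    rw [b2]
    push_cast
    rw [div_mul_cancel_left₀ (by positivity), ← div_eq_mul_inv, div_le_iff₀ b3]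
    nlinarith
  have a3 : (F.card : ℝ) ≤ (12 * L ^ 2) ^ K * Real.exp (3 * L / 4 + 1 / 4) := by
    refine f2.trans ?_
    rw [zero_add, show Bj n0 (12 * L ^ 2) 0 = 1 by simp [Bj], one_mul] at a1
    push_cast
    exact mul_le_mul_of_nonneg_left (a1.trans (Real.exp_le_exp.2 a2)) (by positivity)
  have k1 : (1 : ℝ) ≤ (12 * L ^ 2) ^ K := one_le_pow₀ (by nlinarith)
  have a4 : (F.card : ℝ) ≤ ((12 * L ^ 2) ^ K) ^ 2 * Real.exp (L + 1) :=
    a3.trans (mul_le_mul (by nlinarith) (Real.exp_le_exp.2 (by linarith)) (by positivity)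
      (by positivity))
  have a5 : (F.card : ℝ) ^ 2 / Real.exp ((12 * L ^ 2 : ℕ) / (n0 + 12 * L ^ 2 : ℕ) *
      (2 * (12 * L ^ 2 : ℕ) / 3 - 5)) ≤ ((12 * L ^ 2) ^ K) ^ 2 * Real.exp (L + 1) := by
    rw [div_le_iff₀ (Real.exp_pos _), mul_assoc, ← Real.exp_add, hn]
    refine (pow_le_pow_left₀ (by positivity) a3 2).trans ?_
    rw [mul_pow, ← Real.exp_nat_mul]
    refine mul_le_mul_of_nonneg_left (Real.exp_le_exp.2 ?_) (by positivity)
    push_cast
    have b1 : (12 * (L : ℝ) ^ 2) / (192 * L ^ 3) * (2 * (12 * L ^ 2) / 3 - 5) =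
        L / 2 - 5 / (16 * L) := by field_simp; ring
    have b2 : 5 / (16 * (L : ℝ)) ≤ 5 / 16 := by gcongr; linarith
    linarith
  rw [mul_div_assoc]
  calc _ ≤ (s : ℝ) * ((n0 + 12 * L ^ 2 : ℕ) : ℝ) ^ 8 * (250000 * (((12 * L ^ 2) ^ K) ^ 2 *
        Real.exp (L + 1)) + 4000 * (((12 * L ^ 2) ^ K) ^ 2 * Real.exp (L + 1))) := by gcongr
    _ = (254000 * 192 ^ 8 * 12 ^ (2 * K)) * (L : ℝ) ^ (24 + 4 * K) * (s * Real.exp (L + 1)) := by
        rw [hn]; push_cast; ring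
    _ ≤ _ := mul_le_mul_of_nonneg_right (mul_le_mul
        (by push_cast; linarith [Nat.cast_nonneg (α := ℝ) K])
        (pow_le_pow_right₀ L1 (Nat.le_add_left _ _)) (by positivity) (by positivity))
        (by positivity)

theorem uniform : ∃ K : ℕ, ∀ r s : ℕ, 2 ≤ s → 2 * s - 1 ≤ r →
    s * B r s ≤ K * (1 + (s : ℝ) ^ 2 / r) * m r s ∧
      (m r s : ℝ) ≤ K * (1 + (s : ℝ) ^ 2 / r) ^ K * (s * B r s) := by
  obtain ⟨K0, h0⟩ := joined
  obtain ⟨K1, h1⟩ := sparse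
  obtain ⟨P, hP⟩ : ∃ P : ℕ, P = (10 ^ 7 * 12 ^ 3) ^ K0 := ⟨_, rfl⟩
  obtain ⟨K, k1, k2, k3, k4, k5⟩ : ∃ K, 21 ≤ K ∧ 21 * K1 ≤ K ∧ K1 ≤ K ∧ P ≤ K ∧ 6 * K0 ≤ K :=
    ⟨21 * K1 + P + 6 * K0 + 21, by omega⟩
  refine ⟨K, fun r s hs hr => ?_⟩
  have r0 : (0 : ℝ) < r := by exact_mod_cast (by omega : 0 < r)
  have s1 : (2 : ℝ) ≤ s := by exact_mod_cast hs
  have l0 : (0 : ℝ) < (s : ℝ) ^ 2 / r := by positivity
  have b0 : 0 ≤ B r s := Bj_nonneg r s _
  have hm : ∀ H, Fam r s H → (m r s : ℝ) ≤ H.card := fun H hH => by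
    have : m r s ≤ H.card := Nat.sInf_le ⟨H, rfl, (fam_iff (by omega) H).1 hH⟩
    exact_mod_cast this
  constructor
  · obtain ⟨H, hH, -⟩ := fam_complete (by omega) hr
    obtain ⟨G, g1, g2⟩ := Nat.sInf_mem (s := {n | ∃ H : Finset (Finset (Fin r)), H.card = n ∧
      (∀ e ∈ H, e.card = s) ∧ (∀ e ∈ H, ∀ f ∈ H, (e ∩ f).Nonempty) ∧ tau H = s})
      ⟨H.card, H, rfl, (fam_iff (by omega) H).1 hH⟩
    have a := lower hs hr ((fam_iff (by omega) G).2 g2)
    rw [g1] at a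
    refine a.trans ?_
    have : (21 : ℝ) ≤ K := by exact_mod_cast k1
    unfold m
    gcongr
  set l := (s : ℝ) ^ 2 / r with hl
  obtain ⟨L, hL⟩ : ∃ L, L = ⌈l⌉₊ := ⟨_, rfl⟩
  have L1 : 1 ≤ L := hL ▸ Nat.ceil_pos.2 l0
  have L2 : (L : ℝ) ≤ 1 + l := by rw [hL]; linarith [Nat.ceil_lt_add_one l0.le]
  have L3 : s ^ 2 ≤ L * r := by
    have := Nat.le_ceil l
    rw [← hL, hl, div_le_iff₀ r0] at this
    exact_mod_cast this
  rcases lt_or_ge (10 ^ 7 * (12 * L ^ 2) ^ 3) s with c | c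
  · obtain ⟨H, a1, a2⟩ := h1 r s L L1 L3 c
    have a3 := Bj_low (r := r) (s := s) (s - 1) (by omega)
    have a4 : Real.exp (L + 1) ≤ 21 * B r s := by
      refine le_trans ?_ (mul_le_mul exp_three a3 (Real.exp_pos _).le (by norm_num))
      rw [← Real.exp_add, Nat.cast_sub (by omega), sub_mul, ← mul_div_assoc, ← sq, ← hl]
      have : (s : ℝ) / r ≤ 1 := (div_le_one r0).2 (by exact_mod_cast (by omega : s ≤ r))
      exact Real.exp_le_exp.2 (by push_cast; linarith)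
    refine (hm H a1).trans (a2.trans ?_)
    calc _ ≤ K1 * (1 + l) ^ K1 * (s * (21 * B r s)) := by gcongr
      _ = (21 * K1 : ℕ) * (1 + l) ^ K1 * (s * B r s) := by push_cast; ring
      _ ≤ _ := by gcongr; linarith
  · have a1 : (s : ℝ) ≤ 10 ^ 7 * 12 ^ 3 * (1 + l) ^ 6 :=
      calc (s : ℝ) ≤ 10 ^ 7 * (12 * L ^ 2) ^ 3 := by exact_mod_cast c
        _ = 10 ^ 7 * 12 ^ 3 * (L : ℝ) ^ 6 := by ring
        _ ≤ _ := by gcongr
    refine (h0 r s hs hr).2.1.trans ?_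
    calc _ ≤ (10 ^ 7 * 12 ^ 3 * (1 + l) ^ 6) ^ K0 * (1 * B r s) := by rw [one_mul]; gcongr
      _ = P * (1 + l) ^ (6 * K0) * (1 * B r s) := by
          rw [mul_pow, ← pow_mul, hP]; push_cast; ring
      _ ≤ _ := by gcongr <;> linarith

end Pool.Agent.Lib.MP_270b52_co.Kh
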